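import Pool.Agent.Y707.DK.Defs

/-! **The class group of the generic curve `Y ^ 2 = D + (w + b) ^ 2`.** -/

set_option autoImplicit false
set_option maxHeartbeats 400000

namespace Pool.Agent.Y707.DK

open Polynomial NumberField IsDedekindDomain
open Pool.Agent.Y707.PC Pool.Agent.TH943.HJ

section
variable {K : Type} [Field K] [NumberField K] {k l r g : ℕ}
  {G : Fin l → MvPolynomial (Fin k) (𝓞 K)}
  {D₀ : (𝓞 K)[X]} {δ : Fin r → MvPolynomial (Fin k) (𝓞 K)}
  {b : (MvPolynomial (Fin k) (𝓞 K))[X]}

/-- no product of the `G_i` is a constant times a square over `E` -/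
theorem not_square (h : ∀ S : Finset (Fin l), S.Nonempty → ¬ IsConstSq (∏ i ∈ S, G i))
    (E : IntermediateField K (AlgebraicClosure K)) (S : Finset (Fin l)) (c : E)
    (hS : S.Nonempty) (hc : c ≠ 0) : ¬ IsSquare (MvPolynomial.C c *
      ∏ i ∈ S, MvPolynomial.map ((algebraMap K E).comp (algebraMap (𝓞 K) K)) (G i)) := by
  rintro ⟨P, hP⟩
  apply h S hS
  obtain ⟨s, hs⟩ : ∃ s : AlgebraicClosure K, s ^ 2 = algebraMap E (AlgebraicClosure K) c :=
    IsAlgClosed.exists_pow_nat_eq _ two_pos
  have hs0 : s ≠ 0 := by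
    rintro rfl
    rw [zero_pow two_ne_zero] at hs
    exact hc ((map_eq_zero _).1 hs.symm)
  refine isConstSq_of_sq (Finset.prod_ne_zero_iff.2 fun i _ => ne_of_ind h i)
    (P := MvPolynomial.C s⁻¹ * MvPolynomial.map (algebraMap E (AlgebraicClosure K)) P) ?_
  have h1 := congrArg (MvPolynomial.map (algebraMap E (AlgebraicClosure K))) hP
  rw [map_mul, map_mul, MvPolynomial.map_C, ← hs, ← map_prod, MvPolynomial.map_map] at h1
  have h2 : (algebraMap E (AlgebraicClosure K)).comp ((algebraMap K E).comp
      (algebraMap (𝓞 K) K)) = (algebraMap K (AlgebraicClosure K)).comp (algebraMap (𝓞 K) K) := rfl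
  rw [h2] at h1
  have h3 : (MvPolynomial.C s⁻¹ : MvPolynomial (Fin k) (AlgebraicClosure K)) ^ 2 *
      MvPolynomial.C (s ^ 2) = 1 := by
    rw [← MvPolynomial.C_pow, ← MvPolynomial.C_mul, ← mul_pow, inv_mul_cancel₀ hs0, one_pow,
      MvPolynomial.C_1]
  linear_combination (MvPolynomial.C s⁻¹) ^ 2 * h1 - (MvPolynomial.map ((algebraMap K
    (AlgebraicClosure K)).comp (algebraMap (𝓞 K) K)) (∏ i ∈ S, G i)) * h3

/-- `E` is the field of constants of the function field -/
theorem constants (h : ∀ S : Finset (Fin l), S.Nonempty → ¬ IsConstSq (∏ i ∈ S, G i))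
    (E : IntermediateField K (AlgebraicClosure K)) {M : Type} [Field M] [Algebra E M]
    {ξ : Fin k → M} {η : Fin l → M} (hM : IsFunctionField G E ξ η) (x : M)
    (hx : IsAlgebraic E x) : ∃ e : E, algebraMap E M e = x := by
  have hE0 : CharZero E := charZero_of_injective_algebraMap (algebraMap K E).injective
  obtain ⟨hξ, hη, htop⟩ := hM
  refine const_of_algebraic hξ
    (g := fun i => MvPolynomial.map ((algebraMap K E).comp (algebraMap (𝓞 K) K)) (G i))
    (fun S c hS hc => not_square h E S c hS hc) (η := η) (fun i => ?_) htop x hx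
  rw [hη i, valueAt_eq]
  rfl

/-- **The generic curve.** -/
theorem quad_algebraic (h : IsQuadPencil g G D₀ δ b)
    (E : IntermediateField K (AlgebraicClosure K)) {M : Type} [Field M] [Algebra E M]
    {ξ : Fin k → M} {η : Fin l → M} (hM : IsFunctionField G E ξ η) :
    IsSmoothCurve g (genericQuad D₀ δ b E ξ) ∧
      PicFreeOfRank (genericQuad D₀ δ b E ξ) (quadRank r D₀ E) := by
  classical
  have hconst := constants h.independent E hM
  obtain ⟨hξ, -, -⟩ := hM
  set ι : 𝓞 K →+* E := (algebraMap K E).comp (algebraMap (𝓞 K) K) with hι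
  have hιi : Function.Injective ι := (algebraMap K E).injective.comp
    (IsFractionRing.injective (𝓞 K) K)
  have hmi : Function.Injective (MvPolynomial.map (σ := Fin k) ι) :=
    MvPolynomial.map_injective _ hιi
  have hinj : Function.Injective (MvPolynomial.aeval ξ : MvPolynomial (Fin k) E →ₐ[E] M) := hξ
  have hv : ∀ p, valueAt E ξ p = MvPolynomial.aeval ξ (MvPolynomial.map ι p) := by
    intro p
    rw [valueAt_eq]
    rfl
  have hvinj : Function.Injective (valueAt E ξ) := by
    intro p q h
    rw [hv, hv] at h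
    exact hmi (hinj h)
  have hE0 : CharZero E := charZero_of_injective_algebraMap (algebraMap K E).injective
  have hM0 : CharZero M := charZero_of_injective_algebraMap (algebraMap E M).injective
  have hL0 : CharZero (RatFunc M) := charZero_of_injective_algebraMap (algebraMap M _).injective
  have hvC : (valueAt E ξ).comp MvPolynomial.C = (algebraMap E M).comp ι := by
    ext z
    simp [valueAt, hι]
  -- the factors
  have hmE : (D₀.map ι).Monic := h.monic.map _
  have hsE : (D₀.map ι).Separable := by
    rw [hι, ← Polynomial.map_map]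
    exact h.separable.map
  obtain ⟨S, hS1, hS2, hS3⟩ := factors_spec hmE hsE.squarefree
  let I : Type := {j // j ∈ S} ⊕ Fin r
  let φ : I → M[X] := Sum.elim (fun j => j.1.map (algebraMap E M))
    (fun i => X - C (valueAt E ξ (δ i)))
  have hφm : ∀ i, (φ i).Monic := by
    rintro (j | i)
    · exact (hS1 j.1 j.2).2.1.map _
    · exact monic_X_sub_C _
  have hφi : ∀ i, Irreducible (φ i) := by
    rintro (j | i)
    · exact irreducible_const hconst (hS1 j.1 j.2).1 (hS1 j.1 j.2).2.1
    · exact irreducible_X_sub_C _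
  have hne : ∀ (j : {j // j ∈ S}) (i : Fin r),
      j.1.map (algebraMap E M) ≠ X - C (valueAt E ξ (δ i)) := by
    intro j i h0
    obtain ⟨c, hc⟩ := (hS1 j.1 j.2).2.2
    apply h.nonzero i
    apply hvinj
    have h1 := eval_map_apply (f := valueAt E ξ) (p := D₀.map MvPolynomial.C) (δ i)
    rw [map_zero, ← h1, Polynomial.map_map, hvC, ← Polynomial.map_map, hc, Polynomial.map_mul,
      h0, eval_mul, eval_sub, eval_X, eval_C, sub_self, zero_mul]
  have hφinj : Function.Injective φ := by
    rintro (j | i) (j' | i') hij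
    · have h1 : j.1.map (algebraMap E M) = j'.1.map (algebraMap E M) := hij
      have h2 := Polynomial.map_injective _ (algebraMap E M).injective h1
      rw [Subtype.ext h2]
    · exact (hne j i' hij).elim
    · exact (hne j' i hij.symm).elim
    · have h1 : X - C (valueAt E ξ (δ i)) = X - C (valueAt E ξ (δ i')) := hij
      have h2 := C_injective (sub_right_injective h1)
      rw [h.distinct (hvinj h2)]
  have hprod : ∏ i, φ i = dpoly D₀ δ (valueAt E ξ) := by
    rw [Fintype.prod_sum_type]
    unfold dpoly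
    rw [hvC]
    congr 1
    rw [← Polynomial.map_map, ← hS2, Polynomial.map_prod]
    exact Finset.prod_coe_sort S fun j => j.map (algebraMap E M)
  have hd := dpoly_deg (δ := δ) h.monic h.degree (valueAt E ξ)
  have hb : 2 * (b.map (valueAt E ξ)).natDegree < (∏ i, φ i).natDegree := by
    rw [hprod, hd.2]
    have := natDegree_map_le (f := valueAt E ξ) (p := b)
    have := h.small
    omega
  have hodd : Odd (∏ i, φ i).natDegree := by
    rw [hprod, hd.2]
    exact ⟨g, rfl⟩
  have hgen : genericQuad D₀ δ b E ξ = gg (RatFunc.X : RatFunc M) (∏ i, φ i)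
      (b.map (valueAt E ξ)) := by
    rw [hprod]
    exact quad_gg _ _
  have hsep := sep_gg (L := RatFunc M) (transc_X (M := M)) hodd hb
  have hdom : IsDomain (CR (gg (RatFunc.X : RatFunc M) (∏ i, φ i) (b.map (valueAt E ξ)))) :=
    isDomain (deg_gg hodd hb).1
  have hmain := alg_quad (L := RatFunc M) (ω := RatFunc.X) two_ne_zero (transc_X (M := M))
    ratfunc_hL hφi hφm hφinj hodd hb hsep.squarefree
  have hsm := quad_deg (δ := δ) (b := b) h.monic h.degree h.small
    ((algebraMap M (RatFunc M)).comp (valueAt E ξ)) RatFunc.X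
  have hsm1 : (genericQuad D₀ δ b E ξ).Monic ∧ (genericQuad D₀ δ b E ξ).natDegree = 2 * g + 1 := hsm
  rw [hgen] at hsm1 ⊢
  refine ⟨⟨hsm1.1, hsm1.2, hsep⟩, hdom, hmain.1, hmain.2.1, hmain.2.2.trans ?_⟩
  have hcard : Fintype.card I = S.card + r := by
    rw [Fintype.card_sum, Fintype.card_fin, Fintype.card_coe]
  rw [hcard, hS3]
  unfold quadRank
  rw [add_comm, hι]

end

end Pool.Agent.Y707.DK
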