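import Pool.Agent.Y707.DK.Avg
import Pool.Agent.Y707.SF.Avg

/-! The averages of the traces for the curves `Y ^ 2 = D + (w + b) ^ 2`: asymptotics. -/

set_option autoImplicit false
set_option maxHeartbeats 400000

namespace Pool.Agent.Y707.DK

open Polynomial Finset NumberField
open Pool.Agent.Y707.PC Pool.Agent.Y707.SF

section
variable {K : Type} [Field K] [NumberField K] {k l r g : ℕ}
  {G : Fin l → MvPolynomial (Fin k) (𝓞 K)}
  {D₀ : (𝓞 K)[X]} {δ : Fin r → MvPolynomial (Fin k) (𝓞 K)}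
  {b : (MvPolynomial (Fin k) (𝓞 K))[X]}

theorem arith2 {q s qk S T X m B0 c Mm : ℝ} (hq : 0 < q) (hs : 1 ≤ s) (hsq : s ^ 2 = q)
    (hqk : 0 < qk) (hm : |m| ≤ Mm) (h1 : |T| ≤ c * s * qk) (hS : T = S - m * (q * X))
    (h2 : |X - qk| * s ≤ B0 * qk) : |(qk * q)⁻¹ * S - m| * s ≤ c + Mm * B0 := by
  have e : (qk * q)⁻¹ * S - m = (qk * q)⁻¹ * (T + m * q * (X - qk)) := by
    rw [hS]
    field_simp
    ring
  have hpos : 0 < qk * q := by positivity
  have h0 : 0 ≤ Mm := (abs_nonneg _).trans hm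
  have hs0 : 0 ≤ s := by linarith
  rw [e, _root_.abs_mul, abs_of_pos (inv_pos.2 hpos), mul_assoc, inv_mul_le_iff₀ hpos]
  have h3 : |T + m * q * (X - qk)| ≤ c * s * qk + Mm * q * |X - qk| := by
    refine (abs_add_le _ _).trans (add_le_add h1 ?_)
    rw [_root_.abs_mul, _root_.abs_mul, abs_of_pos hq]
    gcongr
  calc |T + m * q * (X - qk)| * s ≤ (c * s * qk + Mm * q * |X - qk|) * s :=
        mul_le_mul_of_nonneg_right h3 hs0
    _ = c * qk * s ^ 2 + Mm * q * (|X - qk| * s) := by ring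
    _ ≤ c * qk * s ^ 2 + Mm * q * (B0 * qk) := by
        have := mul_le_mul_of_nonneg_left h2 (mul_nonneg h0 hq.le)
        linarith
    _ = qk * q * (c + Mm * B0) := by rw [hsq]; ring

/-- **The averages.** -/
theorem averageQuad_asy (h : IsQuadPencil g G D₀ δ b) : ∃ (B : ℝ) (c : 𝓞 K), 0 ≤ B ∧ c ≠ 0 ∧
    ∀ (κ : Type) [Field κ] [Fintype κ] (φ : 𝓞 K →+* κ), φ c ≠ 0 →
      |averageQuad G D₀ δ b φ - (1 - ((nr D₀ φ : ℝ) + r))| * Real.sqrt (Fintype.card κ) ≤ B := by
  classical
  set Δ := qdisc g D₀ δ b with hΔ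
  have hΔ0 : Δ ≠ 0 := qdisc_ne h
  set N : MvPolynomial (Fin k) (𝓞 K) := (∏ i, G i) * (dd D₀ δ * Δ.leadingCoeff) with hN
  have hG : ∀ i, G i ≠ 0 := ne_of_ind h.independent
  have hN0 : N ≠ 0 := mul_ne_zero (prod_ne_zero_iff.2 fun i _ => hG i)
    (mul_ne_zero (dd_ne h) (leadingCoeff_ne_zero.2 hΔ0))
  obtain ⟨Dg, c, hDg, hc, hfam⟩ := fam_sum hN0
  obtain ⟨B0, c0, hB0, hc0, hnx⟩ := sum_nx h.independent
  set c1 : ℝ := 2 ^ l * (Δ.natDegree * (2 * g)) with hc1
  set c2 : ℝ := 2 ^ l * (4 * g + 2) with hc2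
  have hc10 : 0 ≤ c1 := by positivity
  have hc20 : 0 ≤ c2 := by positivity
  refine ⟨c1 + c2 * Dg + (2 * g + 2) * B0, 2 * (c * c0), by positivity,
    mul_ne_zero two_ne_zero (mul_ne_zero hc hc0), ?_⟩
  intro κ _ _ φ hφ
  rw [map_mul, map_mul, map_ofNat] at hφ
  have h20 : (2 : κ) ≠ 0 := left_ne_zero_of_mul hφ
  have h2 : ringChar κ ≠ 2 := ringChar_of_two h20
  obtain ⟨hr1, hr2, hr3⟩ := sqrt_facts κ
  have hq : (0 : ℝ) < Fintype.card κ := by exact_mod_cast Fintype.card_pos (α := κ)
  set s := Real.sqrt (Fintype.card κ) with hs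
  set q : ℝ := (Fintype.card κ : ℝ) with hqd
  set m : ℝ := 1 - ((nr D₀ φ : ℝ) + r) with hm
  have hmb : |m| ≤ 2 * g + 2 := by
    have h3 : (nr D₀ φ : ℝ) ≤ D₀.natDegree := by exact_mod_cast nr_le h.monic φ
    have h4 : (D₀.natDegree : ℝ) + r = 2 * g + 1 := by exact_mod_cast h.degree
    have h5 : (0 : ℝ) ≤ nr D₀ φ := Nat.cast_nonneg _
    have h6 : (0 : ℝ) ≤ r := Nat.cast_nonneg _
    rw [hm, abs_le]
    constructor <;> linarith
  have htr : ∀ x w, |traceOne (memberQuad D₀ δ b φ x w)| ≤ 2 * g * s :=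
    fun x w => trQ_abs h h2 φ x w
  set T : (Fin k → κ) → ℝ := fun x =>
    (if ∀ i, MvPolynomial.eval₂Hom φ x (G i) ≠ 0 then nx G φ x * ∑ w : κ,
      (if (memberQuad D₀ δ b φ x w).Separable then traceOne (memberQuad D₀ δ b φ x w) else 0)
      else 0) - nx G φ x * (m * q) with hT
  have hnn : ∀ x, 0 ≤ nx G φ x := fun x => (nx_bd φ x).1
  have hgood : ∀ x, |∑ w : κ, (if (memberQuad D₀ δ b φ x w).Separable then
      traceOne (memberQuad D₀ δ b φ x w) else 0)| ≤ q * (2 * g * s) := by
    intro x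
    refine (abs_sum_le_sum_abs _ _).trans ?_
    have h5 : ∀ w ∈ (univ : Finset κ), |if (memberQuad D₀ δ b φ x w).Separable then
        traceOne (memberQuad D₀ δ b φ x w) else 0| ≤ 2 * g * s := by
      intro w _
      split_ifs
      · exact htr x w
      · rw [abs_zero]
        positivity
    refine (sum_le_sum h5).trans (le_of_eq ?_)
    rw [sum_const, card_univ, nsmul_eq_mul]
  have h1 := hfam κ φ (left_ne_zero_of_mul (right_ne_zero_of_mul hφ)) T (c1 * s)
    (c2 * s) (by positivity) (by positivity) (by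
      intro x hx
      rw [hN, map_mul, map_mul, map_prod] at hx
      have hG' : ∀ i, MvPolynomial.eval₂Hom φ x (G i) ≠ 0 := fun i =>
        prod_ne_zero_iff.1 (left_ne_zero_of_mul hx) i (mem_univ i)
      have hd := card_dpoly φ x (left_ne_zero_of_mul (right_ne_zero_of_mul hx))
      have hsum := sum_w (D₀ := D₀) (δ := δ) (b := b) h2 φ x
      rw [hd] at hsum
      push_cast at hsum
      have hΔx : Δ.map (MvPolynomial.eval₂Hom φ x) ≠ 0 :=
        SF.map_ne (right_ne_zero_of_mul (right_ne_zero_of_mul hx))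
      have e : T x = -(nx G φ x * ∑ w : κ, (if (memberQuad D₀ δ b φ x w).Separable then 0 else
          traceOne (memberQuad D₀ δ b φ x w))) := by
        have e1 : ∑ w : κ, (if (memberQuad D₀ δ b φ x w).Separable then
            traceOne (memberQuad D₀ δ b φ x w) else 0) = m * q -
            ∑ w : κ, (if (memberQuad D₀ δ b φ x w).Separable then 0 else
              traceOne (memberQuad D₀ δ b φ x w)) := by
          rw [hm, mul_comm, ← hsum, ← sum_sub_distrib]
          refine sum_congr rfl fun w _ => ?_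
          split_ifs <;> ring
        simp only [hT]
        rw [if_pos hG', e1]
        ring
      rw [e, abs_neg, _root_.abs_mul, abs_of_nonneg (hnn x), hc1, mul_assoc]
      refine mul_le_mul (nx_bd φ x).2 ?_ (abs_nonneg _) (by positivity)
      refine (abs_sum_le_sum_abs _ _).trans ?_
      have h5 : ∀ w : κ, |if (memberQuad D₀ δ b φ x w).Separable then (0 : ℝ) else
          traceOne (memberQuad D₀ δ b φ x w)| ≤
          if (Δ.map (MvPolynomial.eval₂Hom φ x)).eval w = 0 then (2 * g * s) else 0 := by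
        intro w
        split_ifs with h6 h7 h7
        · rw [abs_zero]
          positivity
        · rw [abs_zero]
        · exact htr x w
        · refine (h6 (sep_of_rs (g := g) (quad_deg h.monic h.degree h.small _ w).2 ?_)).elim
          rw [hΔ, qdisc_eval] at h7
          exact h7
      refine (sum_le_sum fun w _ => h5 w).trans ?_
      have e3 : (Δ.natDegree : ℝ) * (2 * g) * s = Δ.natDegree * (2 * g * s) := by ring
      rw [← sum_filter, sum_const, nsmul_eq_mul, e3]
      refine mul_le_mul_of_nonneg_right ?_ (by positivity)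
      refine (card_zeros hΔx).trans ?_
      exact_mod_cast natDegree_map_le) (by
      intro x
      have h6 : |T x| ≤ nx G φ x * (q * (2 * g * s) + (2 * g + 2) * q) := by
        simp only [hT]
        have h7 : |nx G φ x * (m * q)| ≤ nx G φ x * ((2 * g + 2) * q) := by
          rw [_root_.abs_mul, _root_.abs_mul, abs_of_nonneg (hnn x), abs_of_pos hq]
          exact mul_le_mul_of_nonneg_left (mul_le_mul_of_nonneg_right hmb hq.le) (hnn x)
        by_cases hG' : ∀ i, MvPolynomial.eval₂Hom φ x (G i) ≠ 0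
        · rw [if_pos hG']
          refine (abs_sub _ _).trans ?_
          rw [mul_add]
          refine add_le_add ?_ h7
          rw [_root_.abs_mul, abs_of_nonneg (hnn x)]
          exact mul_le_mul_of_nonneg_left (hgood x) (hnn x)
        · rw [if_neg hG', zero_sub, abs_neg]
          refine h7.trans (mul_le_mul_of_nonneg_left ?_ (hnn x))
          have : 0 ≤ q * (2 * g * s) := by positivity
          linarith
      refine h6.trans ?_
      rw [hc2]
      have h8 := mul_le_mul_of_nonneg_right (nx_bd (G := G) φ x).2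
        (by positivity : 0 ≤ q * (2 * g * s) + (2 * g + 2) * q)
      refine h8.trans ?_
      have h9 : q ≤ s * q := by nlinarith
      have h10 : q * (2 * g * s) + (2 * g + 2) * q ≤ (4 * g + 2) * (s * q) := by
        have h11 := mul_le_mul_of_nonneg_left h9 (by positivity : (0 : ℝ) ≤ 2 * g + 2)
        nlinarith
      have h12 := mul_le_mul_of_nonneg_left h10 (by positivity : (0 : ℝ) ≤ 2 ^ l)
      linarith)
  have h3 : ∑ x, T x = ∑ᶠ P ∈ goodQuad G D₀ δ b φ, traceOne (memberQuad D₀ δ b φ P.1 P.2.2) -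
      m * (q * ∑ x : Fin k → κ, nx G φ x) := by
    rw [sum_good2 φ h2 fun x w => traceOne (memberQuad D₀ δ b φ x w), mul_sum, mul_sum,
      ← sum_sub_distrib]
    refine sum_congr rfl fun x _ => ?_
    simp only [hT]
    ring
  have h4 := hnx κ φ (right_ne_zero_of_mul (right_ne_zero_of_mul hφ))
  unfold averageQuad
  rw [Nat.card_eq_fintype_card, pow_succ _ k]
  refine arith2 (c := c1 + c2 * Dg) hq hr1 hr2 (by positivity) hmb ?_ h3 h4
  refine h1.trans (le_of_eq ?_)
  ring

end

end Pool.Agent.Y707.DK
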