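import Pool.Agent.Y707.DK.Defs
import Pool.Agent.Y707.SF.Sum

/-! The averages of the traces for the curves `Y ^ 2 = D + (w + b) ^ 2`. -/

set_option autoImplicit false
set_option maxHeartbeats 400000

namespace Pool.Agent.Y707.DK

open Polynomial Finset NumberField
open Pool.Agent.Y707.PC Pool.Agent.Y707.SF

section
variable {κ : Type} [Field κ] [Fintype κ]

open Classical in
theorem sum_ch_sq_add (h2 : ringChar κ ≠ 2) (c : κ) :
    ∑ u : κ, ch (c + u ^ 2) = (if c = 0 then (Fintype.card κ : ℝ) else 0) - 1 := by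
  have h20 : (2 : κ) ≠ 0 := Ring.two_ne_zero h2
  split_ifs with hc
  · rw [hc]
    have h3 : ∀ u : κ, ch (0 + u ^ 2) = if u = 0 then 0 else 1 := by
      intro u
      rw [zero_add]
      by_cases hu : u = 0
      · rw [if_pos hu, hu, zero_pow two_ne_zero, ch_zero]
      · rw [if_neg hu, sq, ch_mul, ← sq, ch_sq hu]
    rw [sum_congr rfl fun u _ => h3 u, sum_ite, sum_const_zero, zero_add, sum_const, nsmul_eq_mul,
      mul_one]
    have h4 : (univ.filter fun u : κ => ¬ u = 0).card = Fintype.card κ - 1 := by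
      rw [filter_not, filter_eq' univ (0 : κ), if_pos (mem_univ _), card_univ_diff]
      simp
    rw [h4, Nat.cast_sub Fintype.card_pos]
    simp
  · -- `v ^ 2 - u ^ 2 = c` has `q - 1` solutions
    have h3 : ∀ a : κ, (∑ y : κ, if y ^ 2 = a then (1 : ℝ) else 0) = 1 + ch a := by
      intro a
      have h3 := quadraticChar_card_sqrts h2 a
      rw [sum_boole]
      unfold ch
      have h4 : {x : κ | x ^ 2 = a}.toFinset = univ.filter fun x => x ^ 2 = a := by
        ext x
        simp
      rw [h4] at h3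
      have h5 : (((univ.filter fun x : κ => x ^ 2 = a).card : ℤ) : ℝ) =
          (quadraticChar κ a + 1 : ℤ) := by
        rw [h3]
      push_cast at h5
      linarith
    have h4 : ∑ u : κ, ∑ v : κ, (if v ^ 2 = c + u ^ 2 then (1 : ℝ) else 0) =
        Fintype.card κ + ∑ u : κ, ch (c + u ^ 2) := by
      simp only [h3]
      rw [sum_add_distrib, sum_const, card_univ, nsmul_eq_mul, mul_one]
    have h5 : ∑ u : κ, ∑ v : κ, (if v ^ 2 = c + u ^ 2 then (1 : ℝ) else 0) =
        ∑ s : κ, ∑ t : κ, (if s * t = c then (1 : ℝ) else 0) := by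
      rw [← Fintype.sum_prod_type', ← Fintype.sum_prod_type']
      let e : κ × κ ≃ κ × κ :=
        { toFun := fun z => (z.2 - z.1, z.2 + z.1)
          invFun := fun z => ((z.2 - z.1) / 2, (z.2 + z.1) / 2)
          left_inv := fun z => by
            refine Prod.ext ?_ ?_
            · show (z.2 + z.1 - (z.2 - z.1)) / 2 = z.1
              field_simp
              ring
            · show (z.2 + z.1 + (z.2 - z.1)) / 2 = z.2
              field_simp
              ring
          right_inv := fun z => by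
            refine Prod.ext ?_ ?_
            · show (z.2 + z.1) / 2 - (z.2 - z.1) / 2 = z.1
              field_simp
              ring
            · show (z.2 + z.1) / 2 + (z.2 - z.1) / 2 = z.2
              field_simp
              ring }
      refine Fintype.sum_equiv e _ _ fun z => ?_
      refine if_congr ?_ rfl rfl
      show z.2 ^ 2 = c + z.1 ^ 2 ↔ (z.2 - z.1) * (z.2 + z.1) = c
      constructor
      · intro h
        linear_combination h
      · intro h
        linear_combination h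
    have h6 : ∀ s : κ, (∑ t : κ, if s * t = c then (1 : ℝ) else 0) = if s = 0 then 0 else 1 := by
      intro s
      by_cases hs : s = 0
      · rw [if_pos hs, hs]
        refine sum_eq_zero fun t _ => ?_
        rw [if_neg]
        rw [zero_mul]
        exact fun h => hc h.symm
      · rw [if_neg hs, sum_eq_single (s⁻¹ * c)]
        · rw [if_pos (mul_inv_cancel_left₀ hs c)]
        · intro t _ ht
          rw [if_neg]
          intro h
          apply ht
          rw [← h, inv_mul_cancel_left₀ hs]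
        · intro h
          exact (h (mem_univ _)).elim
    rw [h5, sum_congr rfl fun s _ => h6 s, sum_ite, sum_const_zero, zero_add, sum_const,
      nsmul_eq_mul, mul_one] at h4
    have h7 : (univ.filter fun u : κ => ¬ u = 0).card = Fintype.card κ - 1 := by
      rw [filter_not, filter_eq' univ (0 : κ), if_pos (mem_univ _), card_univ_diff]
      simp
    rw [h7, Nat.cast_sub Fintype.card_pos] at h4
    push_cast at h4
    linarith

theorem traceOne_eq (h2 : ringChar κ ≠ 2) (f : κ[X]) : traceOne f = -∑ x : κ, ch (f.eval x) := by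
  classical
  have h3 : ∀ a : κ, (∑ y : κ, if y ^ 2 = a then (1 : ℝ) else 0) = 1 + ch a := by
    intro a
    have h3 := quadraticChar_card_sqrts h2 a
    rw [sum_boole]
    unfold ch
    have h4 : {x : κ | x ^ 2 = a}.toFinset = univ.filter fun x => x ^ 2 = a := by
      ext x
      simp
    rw [h4] at h3
    have h5 : (((univ.filter fun x : κ => x ^ 2 = a).card : ℤ) : ℝ) =
        (quadraticChar κ a + 1 : ℤ) := by
      rw [h3]
    push_cast at h5
    linarith
  have h4 : (Nat.card {P : κ × κ // P.2 ^ 2 = f.eval P.1} : ℝ) =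
      ∑ x : κ, ∑ y : κ, (if y ^ 2 = f.eval x then (1 : ℝ) else 0) := by
    rw [← Fintype.sum_prod_type', sum_boole, Nat.card_eq_fintype_card, Fintype.card_subtype]
  unfold traceOne
  rw [h4, Nat.card_eq_fintype_card]
  simp only [h3]
  rw [sum_add_distrib, sum_const, card_univ, nsmul_eq_mul, mul_one]
  ring

end

section
variable {K : Type} [Field K] [NumberField K] {k l r g : ℕ}
  {G : Fin l → MvPolynomial (Fin k) (𝓞 K)}
  {D₀ : (𝓞 K)[X]} {δ : Fin r → MvPolynomial (Fin k) (𝓞 K)}
  {b : (MvPolynomial (Fin k) (𝓞 K))[X]} {κ : Type} [Field κ] [Fintype κ]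

open Classical in
theorem sum_good2 (φ : 𝓞 K →+* κ) (h2 : ringChar κ ≠ 2) (T : (Fin k → κ) → κ → ℝ) :
    ∑ᶠ P ∈ goodQuad G D₀ δ b φ, T P.1 P.2.2 = ∑ x : Fin k → κ,
      if ∀ i, MvPolynomial.eval₂Hom φ x (G i) ≠ 0 then
      nx G φ x * ∑ w : κ, (if (memberQuad D₀ δ b φ x w).Separable then T x w else 0)
      else 0 := by
  rw [finsum_mem_def, finsum_eq_sum_of_fintype]
  have h3 : (∑ P : (Fin k → κ) × (Fin l → κ) × κ, (goodQuad G D₀ δ b φ).indicator
      (fun P => T P.1 P.2.2) P) = ∑ z : (Fin k → κ) × (Fin l → κ) × κ, if ((∀ i, z.2.1 i ^ 2 =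
        MvPolynomial.eval₂Hom φ z.1 (G i)) ∧ (∀ i, MvPolynomial.eval₂Hom φ z.1 (G i) ≠ 0) ∧
        (memberQuad D₀ δ b φ z.1 z.2.2).Separable) then T z.1 z.2.2 else 0 := by
    refine sum_congr rfl fun z _ => ?_
    rw [Set.indicator_apply]
    refine if_congr ?_ rfl rfl
    unfold goodQuad
    rw [Set.mem_setOf_eq]
    constructor
    · rintro ⟨-, h, hs⟩
      exact ⟨fun i => (h i).1, fun i h0 => (h i).2 (eq_zero_of_pow_eq_zero ((h i).1.trans h0)), hs⟩
    · rintro ⟨h, hG, hs⟩
      exact ⟨Ring.two_ne_zero h2, fun i => ⟨h i, fun h0 => hG i (by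
        rw [← h i, h0, zero_pow two_ne_zero])⟩, hs⟩
  rw [h3, Fintype.sum_prod_type]
  refine sum_congr rfl fun x _ => ?_
  rw [Fintype.sum_prod_type]
  by_cases hG : ∀ i, MvPolynomial.eval₂Hom φ x (G i) ≠ 0
  · rw [if_pos hG, nx, ← card_sqrts h2, sum_mul]
    refine sum_congr rfl fun y _ => ?_
    rw [mul_sum]
    refine sum_congr rfl fun w _ => ?_
    by_cases h4 : ∀ i, y i ^ 2 = MvPolynomial.eval₂Hom φ x (G i)
    · rw [if_pos h4, one_mul]
      by_cases h5 : (memberQuad D₀ δ b φ x w).Separable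
      · rw [if_pos h5, if_pos ⟨h4, hG, h5⟩]
      · rw [if_neg h5, if_neg fun h => h5 h.2.2]
    · rw [if_neg h4, zero_mul, if_neg fun h => h4 h.1]
  · rw [if_neg hG]
    refine sum_eq_zero fun y _ => sum_eq_zero fun w _ => ?_
    rw [if_neg fun h => hG h.2.1]

theorem trQ_abs (h : IsQuadPencil g G D₀ δ b) (h2 : ringChar κ ≠ 2) (φ : 𝓞 K →+* κ)
    (x : Fin k → κ) (w : κ) :
    |traceOne (memberQuad D₀ δ b φ x w)| ≤ 2 * g * Real.sqrt (Fintype.card κ) := by
  rw [traceOne_eq h2, abs_neg]
  have h3 := quad_deg (δ := δ) (b := b) h.monic h.degree h.small (MvPolynomial.eval₂Hom φ x) w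
  exact weil_odd h2 h3.1 h3.2

open Classical in
/-- the sum over all members -/
theorem sum_w (h2 : ringChar κ ≠ 2) (φ : 𝓞 K →+* κ) (x : Fin k → κ) :
    ∑ w : κ, traceOne (memberQuad D₀ δ b φ x w) = Fintype.card κ * (1 -
      ((univ.filter fun t => (dpoly D₀ δ (MvPolynomial.eval₂Hom φ x)).eval t = 0).card : ℝ)) := by
  simp only [traceOne_eq h2]
  rw [sum_neg_distrib, sum_comm]
  have h3 : ∀ t : κ, ∑ w : κ, ch ((memberQuad D₀ δ b φ x w).eval t) =
      (if (dpoly D₀ δ (MvPolynomial.eval₂Hom φ x)).eval t = 0 then (Fintype.card κ : ℝ) else 0) -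
        1 := by
    intro t
    rw [← sum_ch_sq_add h2]
    refine Fintype.sum_equiv (Equiv.addRight ((b.map (MvPolynomial.eval₂Hom φ x)).eval t)) _ _
      fun w => ?_
    unfold memberQuad quad
    rw [eval_add, eval_pow, eval_add, eval_C]
    rfl
  rw [sum_congr rfl fun t _ => h3 t, sum_sub_distrib, ← sum_filter, sum_const, sum_const, card_univ,
    nsmul_eq_mul, nsmul_eq_mul]
  ring

/-- the polynomial whose zeros are the points where some roots coincide -/
noncomputable def dd (D₀ : (𝓞 K)[X]) (δ : Fin r → MvPolynomial (Fin k) (𝓞 K)) :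
    MvPolynomial (Fin k) (𝓞 K) :=
  (∏ i, ∏ j, if i = j then 1 else δ i - δ j) * ∏ j, (D₀.map MvPolynomial.C).eval (δ j)

theorem dd_ne (h : IsQuadPencil g G D₀ δ b) : dd D₀ δ ≠ 0 := by
  unfold dd
  refine mul_ne_zero (prod_ne_zero_iff.2 fun i _ => prod_ne_zero_iff.2 fun j _ => ?_)
    (prod_ne_zero_iff.2 fun j _ => h.nonzero j)
  split_ifs with hij
  · exact one_ne_zero
  · exact sub_ne_zero.2 fun h0 => hij (h.distinct h0)

/-- the number of the roots of `D₀` -/
noncomputable def nr (D₀ : (𝓞 K)[X]) {κ : Type} [Field κ] (φ : 𝓞 K →+* κ) : ℕ :=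
  Nat.card {t : κ // D₀.eval₂ φ t = 0}

theorem nr_iso {κ' : Type} [Field κ'] (φ : 𝓞 K →+* κ) (θ : κ ≃+* κ') :
    nr D₀ ((θ : κ →+* κ').comp φ) = nr D₀ φ := by
  symm
  unfold nr
  refine Nat.card_congr (Equiv.subtypeEquiv θ.toEquiv fun t => ?_)
  have h1 : D₀.eval₂ ((θ : κ →+* κ').comp φ) (θ t) = θ (D₀.eval₂ φ t) :=
    (hom_eval₂ D₀ φ (θ : κ →+* κ') t).symm
  show _ ↔ D₀.eval₂ ((θ : κ →+* κ').comp φ) (θ t) = 0
  rw [h1, map_eq_zero_iff _ θ.injective]

theorem nr_le (hm : D₀.Monic) (φ : 𝓞 K →+* κ) : nr D₀ φ ≤ D₀.natDegree := by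
  classical
  have h1 : nr D₀ φ = (univ.filter fun t => (D₀.map φ).eval t = 0).card := by
    unfold nr
    rw [Nat.card_eq_fintype_card, Fintype.card_subtype]
    simp only [eval_map]
  have h2 := card_zeros (hm.map φ).ne_zero
  rw [hm.natDegree_map] at h2
  rw [h1]
  exact_mod_cast h2

open Classical in
theorem card_dpoly (φ : 𝓞 K →+* κ) (x : Fin k → κ)
    (hx : MvPolynomial.eval₂Hom φ x (dd D₀ δ) ≠ 0) :
    (univ.filter fun t => (dpoly D₀ δ (MvPolynomial.eval₂Hom φ x)).eval t = 0).card =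
      nr D₀ φ + r := by
  have hψ : (MvPolynomial.eval₂Hom φ x).comp MvPolynomial.C = φ := by
    ext z
    rw [RingHom.comp_apply, MvPolynomial.eval₂Hom_C]
  have hD : ∀ t, (dpoly D₀ δ (MvPolynomial.eval₂Hom φ x)).eval t = D₀.eval₂ φ t *
      ∏ j, (t - MvPolynomial.eval₂Hom φ x (δ j)) := by
    intro t
    unfold dpoly
    rw [eval_mul, eval_prod, hψ, eval_map]
    simp only [eval_sub, eval_X, eval_C]
  unfold dd at hx
  rw [map_mul, map_prod, map_prod] at hx
  have hinj : Function.Injective fun j => MvPolynomial.eval₂Hom φ x (δ j) := by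
    intro i j hij
    by_contra hne
    apply left_ne_zero_of_mul hx
    refine prod_eq_zero (mem_univ i) ?_
    rw [map_prod]
    refine prod_eq_zero (mem_univ j) ?_
    rw [if_neg hne, map_sub, sub_eq_zero]
    exact hij
  have hnz : ∀ j, D₀.eval₂ φ (MvPolynomial.eval₂Hom φ x (δ j)) ≠ 0 := by
    intro j h0
    have h1 := prod_ne_zero_iff.1 (right_ne_zero_of_mul hx) j (mem_univ j)
    apply h1
    have h2 := hom_eval₂ D₀ MvPolynomial.C (MvPolynomial.eval₂Hom φ x) (δ j)
    rw [hψ] at h2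
    rw [eval_map]
    exact h2.trans h0
  have h1 : (univ.filter fun t => (dpoly D₀ δ (MvPolynomial.eval₂Hom φ x)).eval t = 0) =
      (univ.filter fun t => D₀.eval₂ φ t = 0) ∪
        univ.image fun j => MvPolynomial.eval₂Hom φ x (δ j) := by
    ext t
    rw [mem_filter, mem_union, mem_filter, mem_image, hD, mul_eq_zero, prod_eq_zero_iff]
    constructor
    · rintro ⟨-, h | ⟨j, -, h⟩⟩
      · exact Or.inl ⟨mem_univ _, h⟩
      · exact Or.inr ⟨j, mem_univ _, (sub_eq_zero.1 h).symm⟩
    · rintro (⟨-, h⟩ | ⟨j, -, h⟩)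
      · exact ⟨mem_univ _, Or.inl h⟩
      · exact ⟨mem_univ _, Or.inr ⟨j, mem_univ _, sub_eq_zero.2 h.symm⟩⟩
  rw [h1, card_union_of_disjoint, card_image_of_injective _ hinj, card_univ, Fintype.card_fin]
  · congr 1
    unfold nr
    rw [Nat.card_eq_fintype_card, Fintype.card_subtype]
  · rw [disjoint_left]
    rintro t ht ht'
    rw [mem_filter] at ht
    rw [mem_image] at ht'
    obtain ⟨j, -, rfl⟩ := ht'
    exact hnz j ht.2

end

end Pool.Agent.Y707.DK
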