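import Pool.Agent.Y707.DK.Gen
import Pool.Agent.Y707.PC.Alg

/-! **The class group of `y ^ 2 = D + (ω + b) ^ 2`.** -/

set_option autoImplicit false
set_option maxHeartbeats 400000

namespace Pool.Agent.Y707.DK

open Polynomial Pool.Agent.TH943.HJ Pool.Agent.Y707.PC

section
variable {M L : Type} [Field M] [Field L] [Algebra M L] {ω : L}

theorem prime_mapC {p : M[X]} (hp : Prime p) : Prime (p.map C : M[X][X]) := by
  have h1 : Prime (C p : M[X][X]) := prime_C_iff.2 hp
  have h2 : p.map C = Polynomial.Bivariate.swap (R := M) (C p) := by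
    rw [Polynomial.Bivariate.swap_C]
  rw [h2]
  exact (MulEquiv.prime_iff (Polynomial.Bivariate.swap (R := M)).toMulEquiv).2 h1

/-- **Irreducible polynomials stay irreducible.** -/
theorem irr_up (hω : Transcendental M ω)
    (hL : ∀ z : L, ∃ p q : M[X], aeval ω q ≠ 0 ∧ z * aeval ω q = aeval ω p)
    {p : M[X]} (hp : Irreducible p) (hm : p.Monic) : Irreducible (up p : L[X]) := by
  have hinj := transcendental_iff_injective.1 hω
  let _ : Algebra M[X] L := (aeval ω : M[X] →ₐ[M] L).toRingHom.toAlgebra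
  have hal : ∀ q : M[X], algebraMap M[X] L q = aeval ω q := fun q => rfl
  have hfr : IsFractionRing M[X] L := by
    refine ⟨⟨?_, ?_, ?_⟩⟩
    · rintro ⟨q, hq⟩
      rw [hal, isUnit_iff_ne_zero]
      intro h0
      exact nonZeroDivisors.ne_zero hq (hinj (by rw [h0, map_zero]))
    · intro z
      obtain ⟨p, q, hq, hz⟩ := hL z
      have hq0 : q ≠ 0 := by
        rintro rfl
        exact hq (map_zero _)
      exact ⟨(p, ⟨q, mem_nonZeroDivisors_of_ne_zero hq0⟩), hz⟩
    · intro x y hxy
      refine ⟨1, ?_⟩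
      rw [hinj hxy]
  have h1 := (prime_mapC hp.prime).irreducible
  have h2 : (p.map C : M[X][X]).Monic := hm.map _
  rw [h2.irreducible_iff_irreducible_map_fraction_map (K := L)] at h1
  have h3 : (p.map C).map (algebraMap M[X] L) = up p := by
    rw [Polynomial.map_map, up_def]
    congr 1
    ext m
    show aeval ω (C m) = _
    rw [aeval_C]
  rwa [h3] at h1

theorem cop_cc (hω : Transcendental M ω)
    (hL : ∀ z : L, ∃ p q : M[X], aeval ω q ≠ 0 ∧ z * aeval ω q = aeval ω p)
    {p : M[X]} (hp : Irreducible p) (hm : p.Monic) (b : M[X]) :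
    IsCoprime (up p : L[X]) (cc ω b) := by
  have hirr := irr_up hω hL hp hm
  rw [hirr.coprime_iff_not_dvd]
  intro hdvd
  obtain ⟨P, hP⟩ : ∃ P : L[X], P = up p := ⟨_, rfl⟩
  rw [← hP] at hirr hdvd
  have : Fact (Irreducible P) := ⟨hirr⟩
  let θ : AdjoinRoot P := AdjoinRoot.root P
  have h0 : aeval θ P = 0 := by
    rw [AdjoinRoot.aeval_eq]
    exact AdjoinRoot.mk_self
  have hup : ∀ q : M[X], aeval θ (up q : L[X]) = aeval θ q := fun q => aeval_map_algebraMap _ _ _
  have h1 : aeval θ (cc ω b) = 0 := by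
    obtain ⟨c, hc⟩ := hdvd
    rw [hc, map_mul, h0, zero_mul]
  unfold cc at h1
  rw [map_add, aeval_C, hup] at h1
  have hθ : IsAlgebraic M θ := ⟨p, hp.ne_zero, by rw [← hup, ← hP]; exact h0⟩
  have hmem : aeval θ b ∈ algebraicClosure M (AdjoinRoot P) := by
    have h3 : θ ∈ algebraicClosure M (AdjoinRoot P) := mem_algebraicClosure_iff.2 hθ
    have h4 : Algebra.adjoin M {θ} ≤ (algebraicClosure M (AdjoinRoot P)).toSubalgebra :=
      Algebra.adjoin_le (Set.singleton_subset_iff.2 h3)
    exact h4 (aeval_mem_adjoin_singleton M θ)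
  have h6 : algebraMap L (AdjoinRoot P) ω = -aeval θ b := by
    linear_combination h1
  have h7 : algebraMap L (AdjoinRoot P) ω ∈ algebraicClosure M (AdjoinRoot P) := by
    rw [h6]
    exact neg_mem hmem
  exact hω ((isAlgebraic_algebraMap_iff (algebraMap L (AdjoinRoot P)).injective).1
    (mem_algebraicClosure_iff.1 h7))

end

section
variable {K : Type} [Field K] {F : K[X]}

theorem span_mul2 {A : Type} [CommRing A] {a a' σ u v : A} (h : u * a + v * a' = 1) :
    Ideal.span {a, σ} * Ideal.span {a', σ} = Ideal.span {a * a', σ} := by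
  rw [Ideal.span_pair_mul_span_pair]
  apply le_antisymm
  · rw [Ideal.span_le]
    have h1 : a * a' ∈ Ideal.span {a * a', σ} := Ideal.subset_span (Set.mem_insert _ _)
    have h2 : σ ∈ Ideal.span {a * a', σ} := Ideal.subset_span (Set.mem_insert_of_mem _ rfl)
    rintro z (rfl | rfl | rfl | rfl)
    · exact h1
    · exact Ideal.mul_mem_left _ _ h2
    · exact Ideal.mul_mem_right _ _ h2
    · exact Ideal.mul_mem_left _ _ h2
  · rw [Ideal.span_le]
    have h3 : u * (a * σ) + v * (σ * a') = σ := by linear_combination σ * h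
    have m1 : a * σ ∈ Ideal.span {a * a', a * σ, σ * a', σ * σ} :=
      Ideal.subset_span (Set.mem_insert_of_mem _ (Set.mem_insert _ _))
    have m2 : σ * a' ∈ Ideal.span {a * a', a * σ, σ * a', σ * σ} :=
      Ideal.subset_span (Set.mem_insert_of_mem _ (Set.mem_insert_of_mem _ (Set.mem_insert _ _)))
    have m3 := Ideal.add_mem _ (Ideal.mul_mem_left _ u m1) (Ideal.mul_mem_left _ v m2)
    rw [h3] at m3
    rintro z (rfl | rfl)
    · exact Ideal.subset_span (Set.mem_insert _ _)
    · exact m3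

theorem pid_mul2 {g g' : K[X]} (c : K[X]) (hc : IsCoprime g g') :
    pid F g c * pid F g' c = pid F (g * g') c := by
  obtain ⟨u, v, huv⟩ := hc
  have h1 : (pp u : CR F) * pp g + pp v * pp g' = 1 := by
    rw [← map_mul, ← map_mul, ← map_add, huv, map_one]
  unfold pid
  rw [span_mul2 h1, map_mul]

theorem pid_one (c : K[X]) : pid F 1 c = 1 := by
  rw [Ideal.one_eq_top, Ideal.eq_top_iff_one]
  have := pp_mem_pid (F := F) 1 c
  rwa [map_one] at this

theorem pid_prod {ι : Type} [DecidableEq ι] (s : Finset ι) (g : ι → K[X]) (c : K[X])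
    (hc : ∀ i j, i ≠ j → IsCoprime (g i) (g j)) :
    ∏ i ∈ s, pid F (g i) c = pid F (∏ i ∈ s, g i) c := by
  induction s using Finset.induction_on with
  | empty => rw [Finset.prod_empty, Finset.prod_empty, pid_one]
  | insert i s hi ih =>
    rw [Finset.prod_insert hi, Finset.prod_insert hi, ih, pid_mul2]
    refine IsCoprime.prod_right fun j hj => hc i j ?_
    rintro rfl
    exact hi hj

/-- primes over `y - c` -/
theorem prime_over {g c : K[X]} (hg : Irreducible g) {𝔭 : Ideal (CR F)} (hp : 𝔭.IsPrime)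
    (h1 : (pp g : CR F) ∈ 𝔭) (h2 : yy F - pp c ∈ 𝔭) : 𝔭 = pid F g c := by
  have hle : pid F g c ≤ 𝔭 := by
    unfold pid
    rw [Ideal.span_le]
    rintro z (rfl | rfl)
    · exact h1
    · exact h2
  refine le_antisymm (fun z hz => ?_) hle
  obtain ⟨p, q, rfl⟩ := exists_el z
  have h3 : (el p q : CR F) = pp (p + q * c) + pp q * (yy F - pp c) := by
    unfold el
    rw [map_add, map_mul]
    ring
  have h4 : (pp (p + q * c) : CR F) ∈ 𝔭 := by
    have h5 : (pp (p + q * c) : CR F) = el p q - pp q * (yy F - pp c) := by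
      rw [h3]
      ring
    rw [h5]
    exact 𝔭.sub_mem hz (𝔭.mul_mem_left _ h2)
  rw [h3]
  refine Ideal.add_mem _ ?_ (Ideal.mul_mem_left _ _ (yy_mem_pid _ _))
  have h6 : g ∣ p + q * c := by
    by_contra hnd
    obtain ⟨u, v, huv⟩ := (hg.coprime_iff_not_dvd).2 hnd
    apply hp.ne_top
    rw [Ideal.eq_top_iff_one, ← map_one (pp : K[X] →+* CR F), ← huv, map_add, map_mul, map_mul]
    exact 𝔭.add_mem (𝔭.mul_mem_left _ h1) (𝔭.mul_mem_left _ h4)
  obtain ⟨r, hr⟩ := h6
  rw [hr, map_mul]
  exact Ideal.mul_mem_right _ _ (pp_mem_pid _ _)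

end

section
variable {M L : Type} [Field M] [Field L] [Algebra M L] {b : M[X]} {ω : L}
  {ι : Type} [Fintype ι] {φ : ι → M[X]}

theorem cop_phi (hφ : ∀ i, Irreducible (φ i)) (hm : ∀ i, (φ i).Monic)
    (hinj : Function.Injective φ) {i j : ι} (hij : i ≠ j) : IsCoprime (φ i) (φ j) := by
  rw [(hφ i).coprime_iff_not_dvd]
  intro h
  have h1 := (hφ i).associated_of_dvd (hφ j) h
  exact hij (hinj (eq_of_monic_of_associated (hm i) (hm j) h1))

theorem up_prod_phi (φ : ι → M[X]) : (up (∏ i, φ i) : L[X]) = ∏ i, up (φ i) := up_prod _ _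

/-- **The class group of `y ^ 2 = D + (ω + b) ^ 2`, `D = ∏ φ_i`, is free of rank `#ι - 1`.** -/
theorem alg_quad (h2 : (2 : L) ≠ 0) (hω : Transcendental M ω)
    (hL : ∀ z : L, ∃ p q : M[X], aeval ω q ≠ 0 ∧ z * aeval ω q = aeval ω p)
    (hφ : ∀ i, Irreducible (φ i)) (hm : ∀ i, (φ i).Monic) (hinj : Function.Injective φ)
    (hD : Odd (∏ i, φ i).natDegree) (hb : 2 * b.natDegree < (∏ i, φ i).natDegree)
    (hsq : Squarefree (gg ω (∏ i, φ i) b)) [IsDomain (CR (gg ω (∏ i, φ i) b))] :
    Module.Free ℤ (Additive (ClassGroup (CR (gg ω (∏ i, φ i) b)))) ∧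
    Module.Finite ℤ (Additive (ClassGroup (CR (gg ω (∏ i, φ i) b)))) ∧
    Module.finrank ℤ (Additive (ClassGroup (CR (gg ω (∏ i, φ i) b)))) =
      Fintype.card ι - 1 := by
  classical
  obtain ⟨F, hF⟩ : ∃ F, F = gg ω (∏ i, φ i) b := ⟨_, rfl⟩
  have hodd : Odd (gg ω (∏ i, φ i) b).natDegree := (deg_gg hD hb).1
  have hded : IsDedekindDomain (CR (gg ω (∏ i, φ i) b)) := dedekind h2 hodd hsq
  have h2M : (2 : M) ≠ 0 := by
    intro h0
    apply h2
    rw [← map_ofNat (algebraMap M L) 2, h0, map_zero]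
  have hne : Nonempty ι := by
    by_contra hcon
    rw [not_nonempty_iff] at hcon
    rw [Finset.univ_eq_empty, Finset.prod_empty, natDegree_one] at hD
    exact (by decide : ¬ Odd 0) hD
  obtain ⟨i0⟩ := hne
  have hFc : gg ω (∏ i, φ i) b - cc ω b ^ 2 = up (∏ i, φ i) := by
    unfold gg
    ring
  have hdvd : ∀ i, up (φ i) ∣ gg ω (∏ i, φ i) b - cc ω b ^ 2 := by
    intro i
    rw [hFc, up_prod]
    exact Finset.dvd_prod_of_mem _ (Finset.mem_univ i)
  have hcopL : ∀ i j, i ≠ j → IsCoprime (up (φ i) : L[X]) (up (φ j)) := by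
    intro i j hij
    exact (cop_phi hφ hm hinj hij).map (mapRingHom (algebraMap M L))
  have hmL : ∀ i, (up (φ i) : L[X]).Monic := fun i => (hm i).map _
  have hcc : ∀ i, IsCoprime (up (φ i) : L[X]) (cc ω b) := fun i => cop_cc hω hL (hφ i) (hm i) b
  -- all classes
  let cl : ι → ClassGroup (CR (gg ω (∏ i, φ i) b)) := fun i =>
    cls (gg ω (∏ i, φ i) b) (up (φ i)) (cc ω b) (hmL i).ne_zero
  have hrel : ∏ i, cl i = 1 := by
    have h3 : ∏ i, cl i = ClassGroup.mk0 (∏ i, idl (gg ω (∏ i, φ i) b) (up (φ i)) (cc ω b)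
        (hmL i).ne_zero) := (map_prod _ _ _).symm
    rw [h3, ClassGroup.mk0_eq_one_iff]
    have h4 : ((∏ i, idl (gg ω (∏ i, φ i) b) (up (φ i)) (cc ω b) (hmL i).ne_zero :
        nonZeroDivisors (Ideal (CR (gg ω (∏ i, φ i) b)))) : Ideal (CR (gg ω (∏ i, φ i) b))) =
        ∏ i, pid (gg ω (∏ i, φ i) b) (up (φ i)) (cc ω b) := by
      rw [Submonoid.coe_finsetProd]
      rfl
    rw [h4, pid_prod _ _ _ hcopL, ← up_prod]
    refine ⟨⟨sg (∏ i, φ i) b ω, ?_⟩⟩
    rw [Ideal.submodule_span_eq]
    apply le_antisymm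
    · unfold pid
      rw [Ideal.span_le]
      rintro z (rfl | rfl)
      · rw [← sg_ta]
        exact Ideal.mul_mem_right _ _ (Ideal.mem_span_singleton_self _)
      · exact Ideal.mem_span_singleton_self _
    · rw [Ideal.span_singleton_le_iff_mem]
      exact yy_mem_pid _ _
  -- the basis
  let s : Type := {i : ι // i ≠ i0}
  let g : s → L[X] := fun j => up (φ j.1)
  let w : s → L[X] := fun _ => cc ω b
  have hP : Pts (gg ω (∏ i, φ i) b) g w := by
    refine ⟨fun j => hmL _, fun j => hdvd _, fun j => hcc _, fun i j hij => hcopL _ _ ?_⟩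
    intro h0
    exact hij (Subtype.ext h0)
  let v : s → Additive (ClassGroup (CR (gg ω (∏ i, φ i) b))) := fun j => Additive.ofMul (cl j.1)
  -- independence
  have hli : LinearIndependent ℤ v := by
    rw [Fintype.linearIndependent_iff]
    intro z hz j
    have h1 : ∏ i, cls (gg ω (∏ i, φ i) b) (g i) (w i) (hP.monic i).ne_zero ^ z i = 1 := by
      have h3 : Additive.ofMul (∏ i, cls (gg ω (∏ i, φ i) b) (g i) (w i)
          (hP.monic i).ne_zero ^ z i) = 0 := by
        rw [ofMul_prod, ← hz]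
        exact Finset.sum_congr rfl fun i _ => ofMul_zpow _ _
      exact h3
    let t : s → L[X] := fun i => if 0 ≤ z i then w i else -w i
    have ht : ∀ i, (0 ≤ z i → t i = w i) ∧ (z i < 0 → t i = -w i) := fun i =>
      ⟨fun h => if_pos h, fun h => if_neg (not_le.2 h)⟩
    have htw : ∀ i, t i = w i ∨ t i = -w i := fun i => by
      by_cases h : 0 ≤ z i
      · exact Or.inl (if_pos h)
      · exact Or.inr (if_neg h)
    have hPt := hP.sign t htw
    have hne : JJ (gg ω (∏ i, φ i) b) g t (fun i => (z i).natAbs) ∈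
        nonZeroDivisors (Ideal (CR (gg ω (∏ i, φ i) b))) :=
      mem_nonZeroDivisors_iff_ne_zero.2 (JJ_ne (fun i => (hP.monic i).ne_zero) t _)
    rw [prod_cls h2 hP z t ht hne, ClassGroup.mk0_eq_one_iff] at h1
    obtain ⟨c, hc⟩ := h1
    rw [Ideal.submodule_span_eq] at hc
    obtain ⟨W, V, rfl⟩ := exists_el c
    obtain ⟨d, hd0, hN⟩ := norm_eq h2 hPt _ hc
    have hcop := prim h2 hPt _ hc
    have hG : (up (∏ i : s, (φ i.1) ^ (z i).natAbs : M[X]) : L[X]) =
        ∏ i, g i ^ (z i).natAbs := by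
      rw [up_prod]
      refine Finset.prod_congr rfl fun i _ => ?_
      rw [up_pow]
    have hGD : ¬ (∏ i, φ i) ∣ ∏ i : s, (φ i.1) ^ (z i).natAbs := by
      intro h3
      have h4 : φ i0 ∣ ∏ i : s, (φ i.1) ^ (z i).natAbs :=
        (Finset.dvd_prod_of_mem φ (Finset.mem_univ i0)).trans h3
      have h5 : IsCoprime (φ i0) (∏ i : s, (φ i.1) ^ (z i).natAbs) :=
        IsCoprime.prod_right fun i _ => (cop_phi hφ hm hinj i.2.symm).pow_right
      exact (hφ i0).not_isUnit (h5.isUnit_of_dvd' dvd_rfl h4)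
    have hV : V = 0 := by
      refine rel_main2 h2M hω hL hD hb hGD (c := d) (W := W) hd0 ?_
      rw [hG]
      exact hN
    rw [hV, isCoprime_zero_right] at hcop
    have hu : IsUnit (∏ i, g i ^ (z i).natAbs) := by
      have h4 : IsUnit (C d * ∏ i, g i ^ (z i).natAbs) := by
        have e : C d * ∏ i, g i ^ (z i).natAbs = W ^ 2 := by
          refine hN.symm.trans ?_
          rw [hV]
          ring
        rw [e]
        exact hcop.pow 2
      exact isUnit_of_mul_isUnit_right h4
    have h5 : IsUnit (g j ^ (z j).natAbs) :=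
      isUnit_of_dvd_unit (Finset.dvd_prod_of_mem (fun i => g i ^ (z i).natAbs)
        (Finset.mem_univ j)) hu
    by_contra hzj
    have h6 : (z j).natAbs ≠ 0 := by
      rw [Ne, Int.natAbs_eq_zero]
      exact hzj
    exact (irr_up hω hL (hφ j.1) (hm j.1)).not_isUnit ((isUnit_pow_iff h6).1 h5)
  -- generation
  have hv : ∀ i, Additive.ofMul (cl i) ∈ Submodule.span ℤ (Set.range v) := by
    intro i
    by_cases hi : i = i0
    · have h3 : Additive.ofMul (cl i) = -∑ j : s, v j := by
        have h4 : Additive.ofMul (∏ i, cl i) = 0 := by rw [hrel]; rfl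
        rw [ofMul_prod, ← Finset.add_sum_erase _ _ (Finset.mem_univ i0)] at h4
        have h5 : ∑ j : s, v j = ∑ j ∈ Finset.univ.erase i0, Additive.ofMul (cl j) := by
          symm
          apply Finset.sum_subtype
          intro x
          simp
        rw [hi, h5]
        exact eq_neg_of_add_eq_zero_left h4
      rw [h3]
      exact neg_mem (sum_mem fun j _ => Submodule.subset_span ⟨j, rfl⟩)
    · exact Submodule.subset_span ⟨⟨i, hi⟩, rfl⟩
  have hsp : ⊤ ≤ Submodule.span ℤ (Set.range v) := by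
    let H : Subgroup (ClassGroup (CR (gg ω (∏ i, φ i) b))) :=
      { carrier := {x | Additive.ofMul x ∈ Submodule.span ℤ (Set.range v)}
        mul_mem' := fun {x y} hx hy => by
          have hx' : Additive.ofMul x ∈ Submodule.span ℤ (Set.range v) := hx
          have hy' : Additive.ofMul y ∈ Submodule.span ℤ (Set.range v) := hy
          show Additive.ofMul (x * y) ∈ Submodule.span ℤ (Set.range v)
          rw [ofMul_mul]
          exact Submodule.add_mem _ hx' hy'
        one_mem' := by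
          show Additive.ofMul 1 ∈ Submodule.span ℤ (Set.range v)
          rw [ofMul_one]
          exact Submodule.zero_mem _
        inv_mem' := fun {x} hx => by
          have hx' : Additive.ofMul x ∈ Submodule.span ℤ (Set.range v) := hx
          show Additive.ofMul x⁻¹ ∈ Submodule.span ℤ (Set.range v)
          rw [ofMul_inv]
          exact Submodule.neg_mem _ hx' }
    have hHtop : H = ⊤ := by
      apply gen2 h2 hω hL hD hb
      intro 𝔭 h0 hp hmem
      have h3 : (pp (up (∏ i, φ i)) : CR (gg ω (∏ i, φ i) b)) ∈ 𝔭 := by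
        rw [← sg_ta]
        exact 𝔭.mul_mem_right _ hmem
      rw [up_prod, map_prod] at h3
      obtain ⟨i, -, hi⟩ := (hp.prod_mem_iff).1 h3
      have h4 := prime_over (irr_up hω hL (hφ i) (hm i)) hp hi hmem
      have e : (⟨𝔭, h0⟩ : nonZeroDivisors (Ideal (CR (gg ω (∏ i, φ i) b)))) =
          idl (gg ω (∏ i, φ i) b) (up (φ i)) (cc ω b) (hmL i).ne_zero := Subtype.ext h4
      rw [e]
      exact hv i
    intro x _
    have hx : Additive.toMul x ∈ H := by
      rw [hHtop]
      exact Subgroup.mem_top _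
    exact hx
  have bs := Module.Basis.mk hli hsp
  refine ⟨Module.Free.of_basis bs, Module.Finite.of_basis bs, ?_⟩
  rw [Module.finrank_eq_card_basis bs]
  have h7 : Fintype.card s = Fintype.card ι - 1 := by
    have := Fintype.card_subtype_compl (fun i : ι => i = i0)
    rw [Fintype.card_subtype_eq] at this
    exact this
  exact h7

end

end Pool.Agent.Y707.DK
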