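import Pool.Agent.Y707.PR.Sys

/-! Roots of polynomials modulo primes and homomorphisms of rings of integers. -/

set_option autoImplicit false
set_option maxHeartbeats 400000

namespace Pool.Agent.Y707.DK

open Polynomial NumberField IsDedekindDomain Filter
open Pool.Agent.H921R2.TatePole (kerPrime)
open Pool.Agent.W353.FB (finite_below)

section
variable {A B k : Type} [CommRing A] [CommRing B] [Algebra A B] [Field k]

/-- the extensions of a homomorphism -/
theorem ext_bij (θ : B) {P : A[X]} (hθ : aeval θ P = 0)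
    (hmin : ∀ g : A[X], aeval θ g = 0 → P ∣ g) {d : A}
    (hd : ∀ x : B, ∃ g : A[X], algebraMap A B d * x = aeval θ g)
    (hφ : ∀ φ : A →+* k, φ d ≠ 0) :
    Function.Bijective (fun χ : B →+* k =>
      (⟨χ.comp (algebraMap A B), ⟨χ θ, by
        rw [← hom_eval₂, ← aeval_def, hθ, map_zero]⟩⟩ :
        Σ φ : A →+* k, {t : k // P.eval₂ φ t = 0})) := by
  constructor
  · intro χ χ' h
    have h1 : χ.comp (algebraMap A B) = χ'.comp (algebraMap A B) := congrArg Sigma.fst h
    have h2 : χ θ = χ' θ := by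
      have h3 := (Sigma.mk.inj_iff.1 h).2
      have : ∀ (φ φ' : A →+* k) (t : {t : k // P.eval₂ φ t = 0}) (t' : {t : k // P.eval₂ φ' t = 0}),
          φ = φ' → HEq t t' → (t : k) = t' := by
        rintro φ _ t t' rfl h
        exact congrArg Subtype.val (eq_of_heq h)
      exact this _ _ _ _ h1 h3
    ext x
    obtain ⟨g, hg⟩ := hd x
    have h3 : χ (algebraMap A B d) * χ x = g.eval₂ (χ.comp (algebraMap A B)) (χ θ) := by
      rw [← map_mul, hg, aeval_def, hom_eval₂]
    have h4 : χ' (algebraMap A B d) * χ' x = g.eval₂ (χ'.comp (algebraMap A B)) (χ' θ) := by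
      rw [← map_mul, hg, aeval_def, hom_eval₂]
    rw [← h1, ← h2, ← h3] at h4
    have h5 : χ' (algebraMap A B d) = χ (algebraMap A B d) :=
      (congrArg (fun f : A →+* k => f d) h1).symm
    rw [h5] at h4
    exact (mul_left_cancel₀ (hφ (χ.comp (algebraMap A B))) h4).symm
  · rintro ⟨φ, t, ht⟩
    have h0 : φ d ≠ 0 := hφ φ
    choose g hg using hd
    have hwd : ∀ (a b : A[X]), aeval θ a = aeval θ b → a.eval₂ φ t = b.eval₂ φ t := by
      intro a b hab
      obtain ⟨c, hc⟩ := hmin (a - b) (by rw [map_sub, hab, sub_self])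
      have h3 : a.eval₂ φ t - b.eval₂ φ t = 0 := by
        rw [← eval₂_sub, hc, eval₂_mul, ht, zero_mul]
      exact sub_eq_zero.1 h3
    let χ : B →+* k :=
      { toFun := fun x => (g x).eval₂ φ t / φ d
        map_one' := by
          have h3 : (g 1).eval₂ φ t = (C d).eval₂ φ t := hwd _ _ (by
            rw [← hg, mul_one, aeval_C])
          rw [h3, eval₂_C, div_self h0]
        map_mul' := fun x y => by
          have h3 : (C d * g (x * y)).eval₂ φ t = (g x * g y).eval₂ φ t := hwd _ _ (by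
            rw [map_mul, map_mul, aeval_C, ← hg, ← hg, ← hg]
            ring)
          rw [eval₂_mul, eval₂_mul, eval₂_C] at h3
          rw [div_mul_div_comm, div_eq_div_iff h0 (mul_ne_zero h0 h0)]
          linear_combination φ d * h3
        map_zero' := by
          have h3 : (g 0).eval₂ φ t = (0 : A[X]).eval₂ φ t := hwd _ _ (by
            rw [← hg, mul_zero, map_zero])
          rw [h3, eval₂_zero, zero_div]
        map_add' := fun x y => by
          have h3 : (g (x + y)).eval₂ φ t = (g x + g y).eval₂ φ t := hwd _ _ (by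
            rw [map_add, ← hg, ← hg, ← hg]
            ring)
          rw [h3, eval₂_add]
          ring }
    have hχ : ∀ x, χ x = (g x).eval₂ φ t / φ d := fun x => rfl
    have h1 : χ.comp (algebraMap A B) = φ := by
      ext a
      rw [RingHom.comp_apply, hχ]
      have h3 : (g (algebraMap A B a)).eval₂ φ t = (C d * C a).eval₂ φ t := hwd _ _ (by
        rw [← hg, map_mul, aeval_C, aeval_C])
      rw [h3, eval₂_mul, eval₂_C, eval₂_C, mul_div_cancel_left₀ _ h0]
    have h2 : χ θ = t := by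
      rw [hχ]
      have h3 : (g θ).eval₂ φ t = (C d * X).eval₂ φ t := hwd _ _ (by
        rw [← hg, map_mul, aeval_C, aeval_X])
      rw [h3, eval₂_mul, eval₂_C, eval₂_X, mul_div_cancel_left₀ _ h0]
    have aux : ∀ (φ φ' : A →+* k) (t : {t : k // P.eval₂ φ t = 0})
        (t' : {t : k // P.eval₂ φ' t = 0}), φ = φ' → (t : k) = t' →
        (⟨φ, t⟩ : Σ φ : A →+* k, {t : k // P.eval₂ φ t = 0}) = ⟨φ', t'⟩ := by
      rintro φ _ t t' rfl h
      rw [Subtype.ext h]
    exact ⟨χ, aux _ _ _ _ h1 h2⟩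

end

section
variable {F : Type} [Field F] [NumberField F]

theorem ne_eventually {d : 𝓞 F} (hd : d ≠ 0) :
    ∀ᶠ p : Nat.Primes in cofinite, ∀ φ : 𝓞 F →+* ZMod (p : ℕ), φ d ≠ 0 := by
  have hfin : {v : HeightOneSpectrum (𝓞 F) | d ∈ v.asIdeal}.Finite := by
    have h := Ideal.finite_factors (I := Ideal.span {d}) (by
      rw [Ne, Ideal.zero_eq_bot, Ideal.span_singleton_eq_bot]
      exact hd)
    refine h.subset fun v hv => ?_
    show v.asIdeal ∣ Ideal.span {d}
    rw [Ideal.dvd_span_singleton]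
    exact hv
  filter_upwards [finite_below (F := F) hfin] with p hp φ h0
  exact hp φ (show d ∈ RingHom.ker φ from h0)

/-- clearing the denominators of a polynomial -/
theorem clear_den (h : F[X]) : ∃ d : 𝓞 F, d ≠ 0 ∧ ∃ g : (𝓞 F)[X],
    g.map (algebraMap (𝓞 F) F) = C (algebraMap (𝓞 F) F d) * h := by
  obtain ⟨b, hb⟩ := IsLocalization.integerNormalization_map_to_map (nonZeroDivisors (𝓞 F)) h
  refine ⟨b, nonZeroDivisors.coe_ne_zero b, _, hb.trans ?_⟩
  rw [← smul_eq_C_mul, algebraMap_smul]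

variable {L : Type} [Field L] [NumberField L] [Algebra F L]

theorem exists_den {θ : 𝓞 L} (hgen : ∀ x : L, ∃ h : F[X], aeval (θ : L) h = x) :
    ∃ d : 𝓞 F, d ≠ 0 ∧ ∀ x : 𝓞 L, ∃ g : (𝓞 F)[X], algebraMap (𝓞 F) (𝓞 L) d * x = aeval θ g := by
  classical
  let N : 𝓞 F → Submodule (𝓞 F) (𝓞 L) := fun d =>
    { carrier := {x | ∃ g : (𝓞 F)[X], algebraMap (𝓞 F) (𝓞 L) d * x = aeval θ g}
      zero_mem' := ⟨0, by rw [mul_zero, map_zero]⟩
      add_mem' := by
        rintro x y ⟨g, hg⟩ ⟨g', hg'⟩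
        exact ⟨g + g', by rw [map_add, ← hg, ← hg']; ring⟩
      smul_mem' := by
        rintro c x ⟨g, hg⟩
        exact ⟨C c * g, by rw [map_mul, ← hg, aeval_C, Algebra.smul_def]; ring⟩ }
  have hmul : ∀ d d' : 𝓞 F, N d ≤ N (d * d') := by
    rintro d d' x ⟨g, hg⟩
    exact ⟨C d' * g, by rw [map_mul, map_mul, ← hg, aeval_C]; ring⟩
  have hone : ∀ x : 𝓞 L, ∃ d : 𝓞 F, d ≠ 0 ∧ x ∈ N d := by
    intro x
    obtain ⟨h, hh⟩ := hgen (x : L)
    obtain ⟨d, hd, g, hg⟩ := clear_den h
    refine ⟨d, hd, g, ?_⟩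
    apply RingOfIntegers.ext
    have h1 : ((aeval θ g : 𝓞 L) : L) = aeval (θ : L) g :=
      (aeval_algebraMap_apply L θ g).symm
    have h2 : aeval (θ : L) g = aeval (θ : L) (g.map (algebraMap (𝓞 F) F)) :=
      (aeval_map_algebraMap F _ _).symm
    rw [h1, h2, hg, map_mul, aeval_C, hh]
    show algebraMap (𝓞 L) L (algebraMap (𝓞 F) (𝓞 L) d * x) = _
    rw [map_mul]
    rfl
  have hfg : (⊤ : Submodule (𝓞 F) (𝓞 L)).FG := Module.Finite.fg_top
  obtain ⟨S, hS⟩ := hfg
  choose dd hdd hmem using hone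
  refine ⟨∏ x ∈ S, dd x, Finset.prod_ne_zero_iff.2 fun x _ => hdd x, fun x => ?_⟩
  have hle : (⊤ : Submodule (𝓞 F) (𝓞 L)) ≤ N (∏ x ∈ S, dd x) := by
    rw [← hS, Submodule.span_le]
    intro y hy
    have h1 : ∏ x ∈ S, dd x = dd y * ∏ x ∈ S.erase y, dd x :=
      (Finset.mul_prod_erase S dd (Finset.mem_coe.1 hy)).symm
    rw [h1]
    exact hmul _ _ (hmem y)
  exact hle Submodule.mem_top

/-- **The homomorphisms and the roots.** -/
theorem card_hom {P : (𝓞 F)[X]} (hm : P.Monic) {θ : 𝓞 L} (hθ : aeval θ P = 0)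
    (hirr : Irreducible (P.map (algebraMap (𝓞 F) F)))
    (hgen : ∀ x : L, ∃ h : F[X], aeval (θ : L) h = x) :
    ∀ᶠ p : Nat.Primes in cofinite, Nat.card (𝓞 L →+* ZMod (p : ℕ)) =
      ∑ᶠ φ : 𝓞 F →+* ZMod (p : ℕ), Nat.card {t : ZMod (p : ℕ) // P.eval₂ φ t = 0} := by
  obtain ⟨d, hd0, hd⟩ := exists_den hgen
  have hmin : ∀ g : (𝓞 F)[X], aeval θ g = 0 → P ∣ g := by
    intro g hg
    rw [← map_dvd_map (algebraMap (𝓞 F) F) (IsFractionRing.injective _ _) hm]
    have h1 : aeval (θ : L) (g.map (algebraMap (𝓞 F) F)) = 0 := by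
      rw [aeval_map_algebraMap]
      have h2 : ((aeval θ g : 𝓞 L) : L) = aeval (θ : L) g :=
        (aeval_algebraMap_apply L θ g).symm
      rw [← h2, hg]
      rfl
    have h3 : aeval (θ : L) (P.map (algebraMap (𝓞 F) F)) = 0 := by
      rw [aeval_map_algebraMap]
      have h2 : ((aeval θ P : 𝓞 L) : L) = aeval (θ : L) P :=
        (aeval_algebraMap_apply L θ P).symm
      rw [← h2, hθ]
      rfl
    have h4 := minpoly.eq_of_irreducible_of_monic hirr h3 (hm.map _)
    rw [h4]
    exact minpoly.dvd F _ h1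
  filter_upwards [ne_eventually hd0] with p hp
  have : Fact (p : ℕ).Prime := ⟨p.2⟩
  have hfin := Pool.Agent.H921R2.TatePole.hom_finite (K := F) p
  let _ := Fintype.ofFinite (𝓞 F →+* ZMod (p : ℕ))
  have hb := ext_bij (k := ZMod (p : ℕ)) θ hθ hmin hd hp
  rw [Nat.card_congr (Equiv.ofBijective _ hb), Nat.card_sigma, finsum_eq_sum_of_fintype]

end

section
variable {k : Type} [Field k]

theorem card_roots_prod {κ : Type} [Fintype κ] [Finite k] (f : κ → k[X])
    (h : ∀ i j, i ≠ j → IsCoprime (f i) (f j)) :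
    Nat.card {t : k // (∏ j, f j).eval t = 0} = ∑ j, Nat.card {t : k // (f j).eval t = 0} := by
  classical
  rw [← Nat.card_sigma]
  symm
  refine Nat.card_congr (Equiv.ofBijective
    (fun z : Σ j, {t : k // (f j).eval t = 0} => ⟨z.2.1, by
      rw [eval_prod]
      exact Finset.prod_eq_zero (Finset.mem_univ z.1) z.2.2⟩) ⟨?_, ?_⟩)
  · rintro ⟨i, t, ht⟩ ⟨j, t', ht'⟩ hij
    have h1 : t = t' := congrArg Subtype.val hij
    subst h1
    have h2 : i = j := by
      by_contra hne
      obtain ⟨u, v, huv⟩ := h i j hne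
      have h3 := congrArg (eval t) huv
      rw [eval_add, eval_mul, eval_mul, ht, ht', eval_one, mul_zero, mul_zero, add_zero] at h3
      exact zero_ne_one h3
    subst h2
    rfl
  · rintro ⟨t, ht⟩
    rw [eval_prod, Finset.prod_eq_zero_iff] at ht
    obtain ⟨j, -, hj⟩ := ht
    exact ⟨⟨j, t, hj⟩, rfl⟩

end

section
variable {F : Type} [Field F] [NumberField F]

/-- The number of the irreducible factors of a polynomial, with their multiplicities. -/
noncomputable def numFactors {F : Type} [Field F] (D : F[X]) : ℕ :=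
  Multiset.card (UniqueFactorizationMonoid.factors D)

open UniqueFactorizationMonoid in
theorem factors_spec {F : Type} [Field F] {D : F[X]} (hm : D.Monic) (hs : Squarefree D) :
    ∃ S : Finset F[X], (∀ j ∈ S, Irreducible j ∧ j.Monic ∧ j ∣ D) ∧ ∏ j ∈ S, j = D ∧
      S.card = numFactors D := by
  classical
  have hD0 : D ≠ 0 := hm.ne_zero
  have h1 : ∀ j ∈ (normalizedFactors D).toFinset, Irreducible j ∧ j.Monic ∧ j ∣ D := by
    intro j hj
    have hj' : j ∈ normalizedFactors D := Multiset.mem_toFinset.1 hj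
    refine ⟨irreducible_of_normalized_factor j hj', ?_, dvd_of_mem_normalizedFactors hj'⟩
    have h2 := normalize_normalized_factor j hj'
    rw [← h2]
    exact monic_normalize (irreducible_of_normalized_factor j hj').ne_zero
  have hnd : (normalizedFactors D).Nodup := (squarefree_iff_nodup_normalizedFactors hD0).1 hs
  refine ⟨(normalizedFactors D).toFinset, h1, ?_, ?_⟩
  · have h3 : ∏ j ∈ (normalizedFactors D).toFinset, j = (normalizedFactors D).prod := by
      rw [Finset.prod_eq_multiset_prod, Multiset.toFinset_val, Multiset.dedup_eq_self.2 hnd,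
        Multiset.map_id']
    rw [h3]
    have h4 : (normalizedFactors D).prod.Monic := by
      rw [← h3]
      exact monic_prod_of_monic _ _ fun j hj => (h1 j hj).2.1
    exact eq_of_monic_of_associated h4 hm (prod_normalizedFactors hD0)
  · rw [Multiset.card_toFinset, Multiset.dedup_eq_self.2 hnd]
    unfold numFactors normalizedFactors
    rw [Multiset.card_map]

/-- **The numbers of the roots modulo the primes.** -/
theorem roots_fields {D : (𝓞 F)[X]} (hm : D.Monic)
    (hs : (D.map (algebraMap (𝓞 F) F)).Separable) :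
    ∃ (κ : Type) (_ : Fintype κ) (L : κ → Type) (_ : ∀ j, Field (L j)) (_ : ∀ j, NumberField (L j)),
      Fintype.card κ = numFactors (D.map (algebraMap (𝓞 F) F)) ∧
      ∀ᶠ p : Nat.Primes in cofinite, ∑ᶠ φ : 𝓞 F →+* ZMod (p : ℕ),
        Nat.card {t : ZMod (p : ℕ) // D.eval₂ φ t = 0} =
        ∑ j, Nat.card (𝓞 (L j) →+* ZMod (p : ℕ)) := by
  classical
  obtain ⟨DF, hDF⟩ : ∃ DF, DF = D.map (algebraMap (𝓞 F) F) := ⟨_, rfl⟩
  have hmF : DF.Monic := by rw [hDF]; exact hm.map _
  have hsq : Squarefree DF := by rw [hDF]; exact hs.squarefree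
  obtain ⟨S, h1, h2, h3⟩ := factors_spec hmF hsq
  let κ : Type := {j // j ∈ S}
  have hirr : ∀ j : κ, Irreducible j.1 := fun j => (h1 j.1 j.2).1
  -- the integral factors
  have hlift : ∀ j : κ, ∃ P : (𝓞 F)[X], P.map (algebraMap (𝓞 F) F) = j.1 ∧ P.Monic := by
    intro j
    obtain ⟨-, hjm, hjd⟩ := h1 j.1 j.2
    rw [hDF] at hjd
    obtain ⟨P, hP⟩ := IsIntegrallyClosed.eq_map_mul_C_of_dvd F hm hjd
    rw [hjm.leadingCoeff, C_1, mul_one] at hP
    refine ⟨P, hP, ?_⟩
    rw [← hP] at hjm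
    exact monic_of_injective (IsFractionRing.injective (𝓞 F) F) hjm
  choose P hP hPm using hlift
  have hprod : ∏ j, P j = D := by
    apply Polynomial.map_injective _ (IsFractionRing.injective (𝓞 F) F)
    rw [Polynomial.map_prod, Finset.prod_congr rfl fun j _ => hP j, ← hDF]
    conv_rhs => rw [← h2]
    exact (Finset.prod_coe_sort S fun j => j)
  -- the fields
  have hfact : ∀ j : κ, Fact (Irreducible j.1) := fun j => ⟨hirr j⟩
  let L : κ → Type := fun j => AdjoinRoot j.1
  let _ : ∀ j, Field (L j) := fun j => AdjoinRoot.instField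
  have hLfin : ∀ j : κ, Module.Finite F (L j) := fun j => (h1 j.1 j.2).2.1.finite_adjoinRoot
  have hLnf : ∀ j : κ, NumberField (L j) := fun j => NumberField.of_module_finite F (L j)
  have hroot : ∀ j : κ, aeval (AdjoinRoot.root j.1 : L j) j.1 = 0 := by
    intro j
    rw [AdjoinRoot.aeval_eq]
    exact AdjoinRoot.mk_self
  have hrootP : ∀ j : κ, aeval (AdjoinRoot.root j.1 : L j) (P j) = 0 := by
    intro j
    have h5 : aeval (AdjoinRoot.root j.1 : L j) ((P j).map (algebraMap (𝓞 F) F)) = 0 := by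
      rw [hP j]
      exact hroot j
    rwa [aeval_map_algebraMap] at h5
  have hint : ∀ j : κ, IsIntegral ℤ (AdjoinRoot.root j.1 : L j) := by
    intro j
    have h4 : IsIntegral (𝓞 F) (AdjoinRoot.root j.1 : L j) := ⟨P j, hPm j, hrootP j⟩
    exact isIntegral_trans (R := ℤ) (A := 𝓞 F) _ h4
  let θ : ∀ j : κ, 𝓞 (L j) := fun j => ⟨AdjoinRoot.root j.1, hint j⟩
  have hθ : ∀ j : κ, aeval (θ j) (P j) = 0 := by
    intro j
    apply RingOfIntegers.ext
    have h5 : ((aeval (θ j) (P j) : 𝓞 (L j)) : L j) = aeval ((θ j : 𝓞 (L j)) : L j) (P j) :=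
      (aeval_algebraMap_apply (L j) (θ j) (P j)).symm
    rw [h5]
    exact hrootP j
  have hcard : ∀ j : κ, ∀ᶠ p : Nat.Primes in cofinite, Nat.card (𝓞 (L j) →+* ZMod (p : ℕ)) =
      ∑ᶠ φ : 𝓞 F →+* ZMod (p : ℕ), Nat.card {t : ZMod (p : ℕ) // (P j).eval₂ φ t = 0} := by
    intro j
    refine card_hom (hPm j) (hθ j) (by rw [hP j]; exact hirr j) fun x => ?_
    obtain ⟨h, rfl⟩ := AdjoinRoot.mk_surjective x
    exact ⟨h, AdjoinRoot.aeval_eq h⟩
  -- separability modulo the primes
  have hsep : ∃ d : 𝓞 F, d ≠ 0 ∧ ∃ u v : (𝓞 F)[X], u * D + v * derivative D = C d := by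
    obtain ⟨u, v, huv⟩ := hs
    obtain ⟨d, hd, u', hu'⟩ := clear_den u
    obtain ⟨e, he, v', hv'⟩ := clear_den v
    refine ⟨d * e, mul_ne_zero hd he, C e * u', C d * v', ?_⟩
    apply Polynomial.map_injective _ (IsFractionRing.injective (𝓞 F) F)
    rw [Polynomial.map_add, Polynomial.map_mul, Polynomial.map_mul, Polynomial.map_mul,
      Polynomial.map_mul, hu', hv', Polynomial.map_C, Polynomial.map_C, Polynomial.map_C,
      ← derivative_map, map_mul, C_mul]
    linear_combination (C (algebraMap (𝓞 F) F d) * C (algebraMap (𝓞 F) F e)) * huv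
  obtain ⟨d, hd0, u, v, huv⟩ := hsep
  refine ⟨κ, inferInstance, L, inferInstance, hLnf, ?_, ?_⟩
  · rw [← hDF, ← h3]
    exact Fintype.card_coe _
  filter_upwards [eventually_all.2 hcard, ne_eventually hd0] with p hp hdp
  have : Fact (p : ℕ).Prime := ⟨p.2⟩
  have hfin := Pool.Agent.H921R2.TatePole.hom_finite (K := F) p
  let _ := Fintype.ofFinite (𝓞 F →+* ZMod (p : ℕ))
  rw [finsum_eq_sum_of_fintype, Finset.sum_congr rfl fun j _ => hp j]
  simp only [finsum_eq_sum_of_fintype]
  rw [Finset.sum_comm]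
  refine Finset.sum_congr rfl fun φ _ => ?_
  have hsepp : (D.map φ).Separable := by
    refine ⟨C (φ d)⁻¹ * u.map φ, C (φ d)⁻¹ * v.map φ, ?_⟩
    have h5 := congrArg (fun q => Polynomial.map φ q) huv
    simp only [Polynomial.map_add, Polynomial.map_mul, Polynomial.map_C] at h5
    rw [derivative_map, mul_assoc, mul_assoc, ← mul_add, h5, ← C_mul, inv_mul_cancel₀ (hdp φ), C_1]
  have h6 : D.map φ = ∏ j, (P j).map φ := by
    rw [← Polynomial.map_prod, hprod]
  have hcop : ∀ i j : κ, i ≠ j → IsCoprime ((P i).map φ) ((P j).map φ) := by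
    intro i j hij
    have h7 : (P i).map φ * (P j).map φ ∣ D.map φ := by
      rw [h6, ← Finset.mul_prod_erase _ _ (Finset.mem_univ i)]
      refine mul_dvd_mul_left _ (Finset.dvd_prod_of_mem _ ?_)
      rw [Finset.mem_erase]
      exact ⟨hij.symm, Finset.mem_univ j⟩
    exact (hsepp.of_dvd h7).isCoprime
  have h8 := card_roots_prod (fun j => (P j).map φ) hcop
  rw [← h6] at h8
  simp only [eval_map] at h8
  exact h8

end

end Pool.Agent.Y707.DK
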