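import Pool.Agent.Y707.DK.Reg
import Pool.Agent.Y707.DK.Hom
import Pool.Agent.Y707.PC.Fin

/-!
# The curves `Y ^ 2 = D(X) + (w + b(X)) ^ 2`

`D = D₀ ∏ (X - δ_j)`, for a polynomial `D₀` with constant coefficients and functions `δ_j`, and `b` is a
polynomial of degree at most `g`.  All coefficients are functions on the variety with the equations
`y_i ^ 2 = G_i(x)`, polynomials in `x_1, …, x_k`.
-/

set_option autoImplicit false
set_option maxHeartbeats 400000

namespace Pool.Agent.Y707.DK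

open Polynomial NumberField IsDedekindDomain
open Pool.Agent.Y707.PC (IsConstSq valueAt)

section
variable {K : Type} [Field K] {k l r : ℕ}

/-- The polynomial `D₀ ∏ (X - δ_j)`, with the coefficients mapped by `ψ`. -/
noncomputable def dpoly (D₀ : (𝓞 K)[X]) (δ : Fin r → MvPolynomial (Fin k) (𝓞 K)) {B : Type}
    [CommRing B] (ψ : MvPolynomial (Fin k) (𝓞 K) →+* B) : B[X] :=
  D₀.map (ψ.comp MvPolynomial.C) * ∏ j, (X - C (ψ (δ j)))

/-- The polynomial `D₀ ∏ (X - δ_j) + (w + b) ^ 2`, with the coefficients mapped by `ψ`. -/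
noncomputable def quad (D₀ : (𝓞 K)[X]) (δ : Fin r → MvPolynomial (Fin k) (𝓞 K))
    (b : (MvPolynomial (Fin k) (𝓞 K))[X]) {B : Type} [CommRing B]
    (ψ : MvPolynomial (Fin k) (𝓞 K) →+* B) (w : B) : B[X] :=
  dpoly D₀ δ ψ + (C w + b.map ψ) ^ 2

/-- The conditions on the data: no product of some of the `G_i` is a constant times a square; `D₀` is
monic and separable; `D₀ ∏ (X - δ_j)` has degree `2 g + 1`, and no multiple roots: the `δ_j` are
distinct, and they are not roots of `D₀`; and `b` has degree at most `g`. -/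
structure IsQuadPencil (g : ℕ) (G : Fin l → MvPolynomial (Fin k) (𝓞 K)) (D₀ : (𝓞 K)[X])
    (δ : Fin r → MvPolynomial (Fin k) (𝓞 K)) (b : (MvPolynomial (Fin k) (𝓞 K))[X]) : Prop where
  independent : ∀ S : Finset (Fin l), S.Nonempty → ¬ IsConstSq (∏ i ∈ S, G i)
  monic : D₀.Monic
  separable : (D₀.map (algebraMap (𝓞 K) K)).Separable
  degree : D₀.natDegree + r = 2 * g + 1
  distinct : Function.Injective δ
  nonzero : ∀ j, (D₀.map MvPolynomial.C).eval (δ j) ≠ 0
  small : b.natDegree ≤ g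

/-- The rank: the number of the irreducible factors of `D₀ ∏ (X - δ_j)` over `E`, minus one. -/
noncomputable def quadRank (r : ℕ) (D₀ : (𝓞 K)[X])
    (E : IntermediateField K (AlgebraicClosure K)) : ℕ :=
  r + numFactors (D₀.map ((algebraMap K E).comp (algebraMap (𝓞 K) K))) - 1

/-- The generic member over `M(w)`, at the point `ξ` with coordinates in the field `M ⊇ E`. -/
noncomputable def genericQuad (D₀ : (𝓞 K)[X]) (δ : Fin r → MvPolynomial (Fin k) (𝓞 K))
    (b : (MvPolynomial (Fin k) (𝓞 K))[X]) (E : IntermediateField K (AlgebraicClosure K))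
    {M : Type} [Field M] [Algebra E M] (ξ : Fin k → M) : (RatFunc M)[X] :=
  quad D₀ δ b ((algebraMap M (RatFunc M)).comp (valueAt E ξ)) RatFunc.X

/-- The member `Y ^ 2 = D(x, X) + (w + b(x, X)) ^ 2` at the point `(x, w)` over the field `κ`. -/
noncomputable def memberQuad (D₀ : (𝓞 K)[X]) (δ : Fin r → MvPolynomial (Fin k) (𝓞 K))
    (b : (MvPolynomial (Fin k) (𝓞 K))[X]) {κ : Type} [Field κ] (φ : 𝓞 K →+* κ)
    (x : Fin k → κ) (w : κ) : κ[X] :=
  quad D₀ δ b (MvPolynomial.eval₂Hom φ x) w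

/-- The trace of the Frobenius on `H¹` of the smooth projective curve `Y ^ 2 = f(X)`, `f` monic of odd
degree, over the finite field `κ` with `q` elements: `q + 1` minus the number of the points, one of which
is at infinity. -/
noncomputable def traceOne {κ : Type} [Field κ] (f : κ[X]) : ℝ :=
  (Nat.card κ : ℝ) - (Nat.card {P : κ × κ // P.2 ^ 2 = f.eval P.1} : ℝ)

/-- The points `(x, y, w)` of the base over the field `κ` of characteristic other than two, with nonzero
`y_i`, over which the curve is smooth. -/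
def goodQuad (G : Fin l → MvPolynomial (Fin k) (𝓞 K)) (D₀ : (𝓞 K)[X])
    (δ : Fin r → MvPolynomial (Fin k) (𝓞 K)) (b : (MvPolynomial (Fin k) (𝓞 K))[X])
    {κ : Type} [Field κ] (φ : 𝓞 K →+* κ) : Set ((Fin k → κ) × (Fin l → κ) × κ) :=
  {P | (2 : κ) ≠ 0 ∧ (∀ i, P.2.1 i ^ 2 = MvPolynomial.eval₂Hom φ P.1 (G i) ∧ P.2.1 i ≠ 0) ∧
    (memberQuad D₀ δ b φ P.1 P.2.2).Separable}

/-- The fibre average `q^{-(k + 1)} ∑ a(fibre)` of the traces on `H¹` over the good points of the base,
of dimension `k + 1`. -/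
noncomputable def averageQuad (G : Fin l → MvPolynomial (Fin k) (𝓞 K)) (D₀ : (𝓞 K)[X])
    (δ : Fin r → MvPolynomial (Fin k) (𝓞 K)) (b : (MvPolynomial (Fin k) (𝓞 K))[X])
    {κ : Type} [Field κ] (φ : 𝓞 K →+* κ) : ℝ :=
  ((Nat.card κ : ℝ) ^ (k + 1))⁻¹ *
    ∑ᶠ P ∈ goodQuad G D₀ δ b φ, traceOne (memberQuad D₀ δ b φ P.1 P.2.2)

end

section
variable {K : Type} [Field K] {k l r g : ℕ} {G : Fin l → MvPolynomial (Fin k) (𝓞 K)}
  {D₀ : (𝓞 K)[X]} {δ : Fin r → MvPolynomial (Fin k) (𝓞 K)}
  {b : (MvPolynomial (Fin k) (𝓞 K))[X]}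

theorem dpoly_map {B D : Type} [CommRing B] [CommRing D]
    (ψ : MvPolynomial (Fin k) (𝓞 K) →+* B) (θ : B →+* D) :
    (dpoly D₀ δ ψ).map θ = dpoly D₀ δ (θ.comp ψ) := by
  unfold dpoly
  rw [Polynomial.map_mul, Polynomial.map_prod, Polynomial.map_map]
  simp only [Polynomial.map_sub, Polynomial.map_X, Polynomial.map_C, RingHom.comp_apply,
    RingHom.comp_assoc]

theorem quad_map {B D : Type} [CommRing B] [CommRing D]
    (ψ : MvPolynomial (Fin k) (𝓞 K) →+* B) (w : B) (θ : B →+* D) :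
    (quad D₀ δ b ψ w).map θ = quad D₀ δ b (θ.comp ψ) (θ w) := by
  unfold quad
  rw [Polynomial.map_add, Polynomial.map_pow, Polynomial.map_add, Polynomial.map_map, dpoly_map,
    Polynomial.map_C]

theorem dpoly_deg {B : Type} [CommRing B] [Nontrivial B] (hm : D₀.Monic)
    (hd : D₀.natDegree + r = 2 * g + 1) (ψ : MvPolynomial (Fin k) (𝓞 K) →+* B) :
    (dpoly D₀ δ ψ).Monic ∧ (dpoly D₀ δ ψ).natDegree = 2 * g + 1 := by
  have h1 : (D₀.map (ψ.comp MvPolynomial.C)).Monic := hm.map _
  have h2 : (∏ j, (X - C (ψ (δ j)))).Monic := monic_prod_of_monic _ _ fun i _ => monic_X_sub_C _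
  refine ⟨h1.mul h2, ?_⟩
  unfold dpoly
  rw [h1.natDegree_mul h2, hm.natDegree_map, natDegree_prod_of_monic _ _ fun i _ => monic_X_sub_C _]
  simp only [natDegree_X_sub_C, Finset.sum_const, Finset.card_univ, Fintype.card_fin, smul_eq_mul,
    mul_one]
  exact hd

theorem quad_deg {B : Type} [CommRing B] [Nontrivial B] (hm : D₀.Monic)
    (hd : D₀.natDegree + r = 2 * g + 1) (hb : b.natDegree ≤ g)
    (ψ : MvPolynomial (Fin k) (𝓞 K) →+* B) (w : B) :
    (quad D₀ δ b ψ w).Monic ∧ (quad D₀ δ b ψ w).natDegree = 2 * g + 1 := by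
  obtain ⟨h1, h2⟩ := dpoly_deg (δ := δ) hm hd ψ
  have h3 : ((C w + b.map ψ) ^ 2).natDegree < (dpoly D₀ δ ψ).natDegree := by
    rw [h2]
    have h4 : (C w + b.map ψ).natDegree ≤ g := by
      refine (natDegree_add_le _ _).trans (max_le (by rw [natDegree_C]; omega) ?_)
      exact natDegree_map_le.trans hb
    have h5 := natDegree_pow_le_of_le 2 h4
    omega
  constructor
  · exact h1.add_of_left (degree_lt_degree h3)
  · unfold quad
    rw [natDegree_add_eq_left_of_natDegree_lt h3, h2]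

/-- the discriminant, up to sign -/
noncomputable def rs (g : ℕ) {B : Type} [CommRing B] (f : B[X]) : B :=
  Polynomial.resultant f (derivative f) (2 * g + 1) (2 * g)

theorem rs_map {B D : Type} [CommRing B] [CommRing D] (f : B[X]) (θ : B →+* D) :
    θ (rs g f) = rs g (f.map θ) := by
  unfold rs
  rw [← Polynomial.resultant_map_map, Polynomial.derivative_map]

theorem sep_of_rs {B : Type} [Field B] {f : B[X]} (hd : f.natDegree = 2 * g + 1)
    (h : rs g f ≠ 0) : f.Separable := by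
  have h2 := natDegree_derivative_le f
  obtain ⟨p, q, -, -, h3⟩ := Polynomial.exists_mul_add_mul_eq_C_resultant (m := 2 * g + 1)
    (n := 2 * g) f (derivative f) (by omega) (by omega) (by omega)
  have h4 : Polynomial.resultant f (derivative f) (2 * g + 1) (2 * g) = rs g f := rfl
  rw [h4] at h3
  refine ⟨C (rs g f)⁻¹ * p, C (rs g f)⁻¹ * q, ?_⟩
  have hc : (C (rs g f)⁻¹ : Polynomial B) * C (rs g f) = 1 := by
    rw [← C_mul, inv_mul_cancel₀ h, C_1]
  rw [← hc, ← h3]
  ring

theorem rs_ne {B : Type} [Field B] [CharZero B] {f : B[X]} (hd : f.natDegree = 2 * g + 1)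
    (h : f.Separable) : rs g f ≠ 0 := by
  have h3 : (derivative f).natDegree = 2 * g := by
    rw [natDegree_derivative, hd]
    omega
  have h4 := Polynomial.resultant_ne_zero _ _ h
  rw [hd, h3] at h4
  exact h4

/-- the generic member as `D + (ω + b) ^ 2` -/
theorem quad_gg {M L : Type} [Field M] [Field L] [Algebra M L]
    (ψ : MvPolynomial (Fin k) (𝓞 K) →+* M) (ω : L) :
    quad D₀ δ b ((algebraMap M L).comp ψ) ω = gg ω (dpoly D₀ δ ψ) (b.map ψ) := by
  unfold quad gg cc
  rw [← dpoly_map, Pool.Agent.Y707.PC.up_def, Pool.Agent.Y707.PC.up_def, Polynomial.map_map]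

end

section
variable {K : Type} [Field K] [NumberField K] {k l r g : ℕ}
  {G : Fin l → MvPolynomial (Fin k) (𝓞 K)}
  {D₀ : (𝓞 K)[X]} {δ : Fin r → MvPolynomial (Fin k) (𝓞 K)}
  {b : (MvPolynomial (Fin k) (𝓞 K))[X]}

variable (g D₀ δ b) in
/-- the discriminant of the generic member -/
noncomputable def qdisc : (MvPolynomial (Fin k) (𝓞 K))[X] :=
  rs g (quad D₀ δ b (C : MvPolynomial (Fin k) (𝓞 K) →+* _) X)

theorem qdisc_ne (h : IsQuadPencil g G D₀ δ b) : qdisc g D₀ δ b ≠ 0 := by
  intro h0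
  let A := MvPolynomial (Fin k) (𝓞 K)
  let M := FractionRing A
  let L := RatFunc M
  let θ : A[X] →+* L := (algebraMap M[X] L).comp (mapRingHom (algebraMap A M))
  have hinj : Function.Injective (algebraMap A M) := IsFractionRing.injective A M
  have hM0 : CharZero M := charZero_of_injective_algebraMap hinj
  have hL0 : CharZero L := charZero_of_injective_algebraMap (algebraMap M L).injective
  have h1 := rs_map (g := g) (quad D₀ δ b (C : A →+* A[X]) X) θ
  have h0' : rs g (quad D₀ δ b (C : A →+* A[X]) X) = 0 := h0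
  rw [h0', map_zero, quad_map] at h1
  have hX : θ X = RatFunc.X := by
    show (algebraMap M[X] L) ((X : A[X]).map (algebraMap A M)) = _
    rw [Polynomial.map_X, RatFunc.algebraMap_X]
  have hC' : θ.comp C = (algebraMap M L).comp (algebraMap A M) := RingHom.ext fun z => by
    show (algebraMap M[X] L) ((C z : A[X]).map (algebraMap A M)) = _
    rw [Polynomial.map_C]
    rfl
  rw [hX, hC', quad_gg] at h1
  have hd := dpoly_deg (δ := δ) h.monic h.degree (algebraMap A M)
  have hb : 2 * (b.map (algebraMap A M)).natDegree < (dpoly D₀ δ (algebraMap A M)).natDegree := by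
    rw [hd.2]
    have := natDegree_map_le (f := algebraMap A M) (p := b)
    have := h.small
    omega
  have hodd : Odd (dpoly D₀ δ (algebraMap A M)).natDegree := by
    rw [hd.2]
    exact ⟨g, rfl⟩
  have h2 := sep_gg (L := L) (Pool.Agent.Y707.PC.transc_X (M := M)) hodd hb
  have h3 := (deg_gg (ω := (RatFunc.X : L)) hodd hb).2
  rw [hd.2] at h3
  exact rs_ne h3 h2 h1.symm

theorem qdisc_eval {κ : Type} [Field κ] (φ : 𝓞 K →+* κ) (x : Fin k → κ) (w : κ) :
    ((qdisc g D₀ δ b).map (MvPolynomial.eval₂Hom φ x)).eval w =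
      rs g (memberQuad D₀ δ b φ x w) := by
  have h1 := rs_map (g := g) (quad D₀ δ b (C : MvPolynomial (Fin k) (𝓞 K) →+* _) X)
    (eval₂RingHom (MvPolynomial.eval₂Hom φ x) w)
  rw [quad_map] at h1
  have e1 : (eval₂RingHom (MvPolynomial.eval₂Hom φ x) w).comp C = MvPolynomial.eval₂Hom φ x :=
    RingHom.ext fun p => by rw [RingHom.comp_apply, coe_eval₂RingHom, eval₂_C]
  have e2 : eval₂RingHom (MvPolynomial.eval₂Hom φ x) w X = w := by
    rw [coe_eval₂RingHom, eval₂_X]
  rw [e1, e2] at h1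
  rw [eval_map]
  exact h1

end

end Pool.Agent.Y707.DK
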