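import Mathlib

/-! The equation `W ^ 2 - (h + x ^ 2) V ^ 2 = e` over `R[x]`. -/

set_option autoImplicit false
set_option maxHeartbeats 400000

namespace Pool.Agent.Y707.DK

open Polynomial

section
variable {R : Type} [CommRing R]

/-- `(2 s) ^ N p((h - s ^ 2) / (2 s))` -/
noncomputable def hom (h : R) (p : R[X]) (N : ℕ) : R[X] :=
  ∑ i ∈ Finset.range (N + 1), C (p.coeff i) * (C h - X ^ 2) ^ i * (2 * X) ^ (N - i)

theorem hom_eval {K : Type} [Field K] [Algebra R[X] K] (h : R) (p : R[X]) {N : ℕ}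
    (hN : p.natDegree ≤ N) {s T : K} (hs : algebraMap R[X] K X = s)
    (hT : algebraMap R[X] K (C h) - s ^ 2 = 2 * s * T) :
    algebraMap R[X] K (hom h p N) =
      (2 * s) ^ N * p.eval₂ ((algebraMap R[X] K).comp C) T := by
  unfold hom
  rw [eval₂_eq_sum_range' _ (Nat.lt_succ_of_le hN), map_sum, Finset.mul_sum]
  refine Finset.sum_congr rfl fun i hi => ?_
  have hi' : i ≤ N := by
    rw [Finset.mem_range] at hi
    omega
  rw [map_mul, map_mul, map_pow, map_pow, map_sub, map_pow, map_mul, hs, hT, map_ofNat, mul_pow]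
  have h2 : (2 * s) ^ N = (2 * s) ^ (N - i) * (2 * s) ^ i := by
    rw [← pow_add]
    congr 1
    omega
  rw [h2]
  show algebraMap R[X] K (C (p.coeff i)) * _ * _ = _ * (algebraMap R[X] K (C (p.coeff i)) * _)
  rw [mul_pow]
  ring

theorem hom_top [IsDomain R] (h : R) (p : R[X]) :
    (hom h p p.natDegree).coeff (2 * p.natDegree) = (-1) ^ p.natDegree * p.leadingCoeff := by
  unfold hom
  rw [finset_sum_coeff, Finset.sum_range_succ, Finset.sum_eq_zero, zero_add]
  · rw [Nat.sub_self, pow_zero, mul_one, coeff_C_mul]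
    have h1 : (C h - X ^ 2 : R[X]).natDegree = 2 := by
      have : (C h - X ^ 2 : R[X]) = -(X ^ 2 - C h) := by ring
      rw [this, natDegree_neg, natDegree_X_pow_sub_C]
    have h2 := coeff_pow_mul_natDegree (C h - X ^ 2 : R[X]) p.natDegree
    rw [h1, mul_comm p.natDegree 2] at h2
    rw [h2]
    have h3 : (C h - X ^ 2 : R[X]).leadingCoeff = -1 := by
      have : (C h - X ^ 2 : R[X]) = -(X ^ 2 - C h) := by ring
      rw [this, leadingCoeff_neg, leadingCoeff_X_pow_sub_C two_pos]
    rw [h3]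
    unfold leadingCoeff
    ring
  · intro i hi
    rw [Finset.mem_range] at hi
    apply coeff_eq_zero_of_natDegree_lt
    have h1 : (C h - X ^ 2 : R[X]).natDegree ≤ 2 := by
      refine (natDegree_sub_le _ _).trans ?_
      rw [natDegree_C, natDegree_X_pow]
      simp
    have h2 : (2 * X : R[X]).natDegree ≤ 1 := by
      have : (2 * X : R[X]) = C 2 * X := by rw [map_ofNat]
      rw [this]
      exact (natDegree_C_mul_le _ _).trans natDegree_X_le
    calc (C (p.coeff i) * (C h - X ^ 2) ^ i * (2 * X) ^ (p.natDegree - i)).natDegree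
        ≤ 0 + i * 2 + (p.natDegree - i) * 1 := by
          refine natDegree_mul_le.trans (add_le_add (natDegree_mul_le.trans (add_le_add ?_ ?_)) ?_)
          · rw [natDegree_C]
          · exact natDegree_pow_le_of_le i h1
          · exact natDegree_pow_le_of_le _ h2
      _ < 2 * p.natDegree := by omega

/-- **The key step.** -/
theorem lau [IsDomain R] (h2 : IsUnit (2 : R)) {h e : R} {W V : R[X]}
    (hE : W ^ 2 - (C h + X ^ 2) * V ^ 2 = C e) (hV : V ≠ 0) : h ∣ e := by
  obtain ⟨m, hm⟩ : ∃ m, m = V.natDegree := ⟨_, rfl⟩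
  -- the degree of `W`
  have hX : (C h + X ^ 2 : R[X]).natDegree = 2 := by
    have : (C h + X ^ 2 : R[X]) = X ^ 2 + C h := by ring
    rw [this, natDegree_X_pow_add_C]
  have hX0 : (C h + X ^ 2 : R[X]) ≠ 0 := by
    intro h0
    rw [h0, natDegree_zero] at hX
    omega
  have hWd : W.natDegree ≤ m + 1 := by
    have h1 : W ^ 2 = C e + (C h + X ^ 2) * V ^ 2 := by rw [← hE]; ring
    have h3 := congrArg natDegree h1
    rw [natDegree_pow] at h3
    have h4 : (C e + (C h + X ^ 2) * V ^ 2).natDegree ≤ 2 + 2 * m := by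
      refine (natDegree_add_le _ _).trans (max_le (by rw [natDegree_C]; omega) ?_)
      rw [natDegree_mul hX0 (pow_ne_zero 2 hV), hX, natDegree_pow, hm]
    omega
  let K := FractionRing R[X]
  have hinj : Function.Injective (algebraMap R[X] K) := IsFractionRing.injective R[X] K
  obtain ⟨s, hs⟩ : ∃ s : K, algebraMap R[X] K X = s := ⟨_, rfl⟩
  have hs0 : s ≠ 0 := by
    rw [← hs, Ne, map_eq_zero_iff _ hinj]
    exact X_ne_zero
  have h20 : (2 : K) ≠ 0 := by
    have h3 : (2 : K) = algebraMap R[X] K (C 2) := by rw [map_ofNat, map_ofNat]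
    rw [h3, Ne, map_eq_zero_iff _ hinj, C_eq_zero]
    exact h2.ne_zero
  let T : K := (algebraMap R[X] K (C h) - s ^ 2) / (2 * s)
  have hT : algebraMap R[X] K (C h) - s ^ 2 = 2 * s * T := by
    exact (mul_div_cancel₀ _ (mul_ne_zero h20 hs0)).symm
  obtain ⟨A, hA⟩ : ∃ A, A = hom h W (m + 1) := ⟨_, rfl⟩
  obtain ⟨B, hB⟩ : ∃ B, B = hom h V m * (C h + X ^ 2) := ⟨_, rfl⟩
  have hAB : (A + B) * (A - B) = C (4 ^ (m + 1) * e) * X ^ (2 * m + 2) := by
    apply hinj
    have e1 := hom_eval h W hWd hs hT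
    have e2 := hom_eval h V (le_of_eq hm.symm) hs hT
    have e3 := congrArg (eval₂ ((algebraMap R[X] K).comp C) T) hE
    rw [eval₂_sub, eval₂_mul, eval₂_pow, eval₂_pow, eval₂_add, eval₂_pow, eval₂_X, eval₂_C,
      eval₂_C] at e3
    simp only [RingHom.comp_apply] at e3
    simp only [map_mul, map_add, map_sub, map_pow, hA, hB, e1, e2, hs]
    have e4 : algebraMap R[X] K (C h) = 2 * s * T + s ^ 2 := by rw [← hT]; ring
    rw [e4] at e3 ⊢
    have e5 : (algebraMap R[X] K) (C 4) = 4 := by rw [map_ofNat, map_ofNat]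
    rw [e5]
    have e6 : (4 : K) ^ (m + 1) * s ^ (2 * m + 2) = ((2 * s) ^ (m + 1)) ^ 2 := by
      rw [← pow_mul, mul_pow, show (4 : K) = 2 ^ 2 by norm_num, ← pow_mul]
      congr 2 <;> ring
    calc _ = ((2 * s) ^ (m + 1)) ^ 2 * (eval₂ ((algebraMap R[X] K).comp C) T W ^ 2 -
          (2 * s * T + s ^ 2 + T ^ 2) * eval₂ ((algebraMap R[X] K).comp C) T V ^ 2) := by
            rw [pow_succ (2 * s) m]
            ring
      _ = _ := by
        rw [e3, ← e6]
        ring
  -- the top coefficient of `B`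
  have hBtop : B.coeff (2 * m + 2) = (-1) ^ m * V.leadingCoeff := by
    rw [hB, mul_add, coeff_add, coeff_mul_C, coeff_mul_X_pow, hm, hom_top]
    have h3 : (hom h V V.natDegree).coeff (2 * V.natDegree + 2) = 0 := by
      apply coeff_eq_zero_of_natDegree_lt
      have h4 : (hom h V V.natDegree).natDegree ≤ 2 * V.natDegree := by
        unfold hom
        apply natDegree_sum_le_of_forall_le
        intro i hi
        rw [Finset.mem_range] at hi
        have h1 : (C h - X ^ 2 : R[X]).natDegree ≤ 2 := by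
          refine (natDegree_sub_le _ _).trans ?_
          rw [natDegree_C, natDegree_X_pow]
          simp
        have h2 : (2 * X : R[X]).natDegree ≤ 1 := by
          have : (2 * X : R[X]) = C 2 * X := by rw [map_ofNat]
          rw [this]
          exact (natDegree_C_mul_le _ _).trans natDegree_X_le
        calc _ ≤ 0 + i * 2 + (V.natDegree - i) * 1 := by
              refine natDegree_mul_le.trans (add_le_add (natDegree_mul_le.trans
                (add_le_add ?_ ?_)) ?_)
              · rw [natDegree_C]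
              · exact natDegree_pow_le_of_le i h1
              · exact natDegree_pow_le_of_le _ h2
          _ ≤ 2 * V.natDegree := by omega
      omega
    rw [h3, zero_mul, zero_add]
  have hBtop0 : B.coeff (2 * m + 2) ≠ 0 := by
    rw [hBtop]
    exact mul_ne_zero (pow_ne_zero _ (by norm_num)) (leadingCoeff_ne_zero.2 hV)
  by_cases he : e = 0
  · rw [he]
    exact dvd_zero h
  have h4u : IsUnit ((4 : R) ^ (m + 1)) := by
    have : (4 : R) = 2 ^ 2 := by norm_num
    rw [this]
    exact (h2.pow 2).pow _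
  have hce : (4 : R) ^ (m + 1) * e ≠ 0 := mul_ne_zero h4u.ne_zero he
  -- one of the factors has the full degree
  have key : ∀ P Q : R[X], P * Q = C (4 ^ (m + 1) * e) * X ^ (2 * m + 2) →
      P.coeff (2 * m + 2) ≠ 0 → Q.coeff 0 = P.coeff 0 - 2 * B.coeff 0 ∨
        Q.coeff 0 = P.coeff 0 + 2 * B.coeff 0 → h ∣ e := by
    intro P Q hPQ hP hQ
    have hne : P * Q ≠ 0 := by
      rw [hPQ]
      exact mul_ne_zero (C_ne_zero.2 hce) (pow_ne_zero _ X_ne_zero)
    have hP0 : P ≠ 0 := left_ne_zero_of_mul hne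
    have hQ0 : Q ≠ 0 := right_ne_zero_of_mul hne
    have h3 : (P * Q).natDegree = 2 * m + 2 := by
      rw [hPQ, natDegree_C_mul_X_pow _ _ hce]
    rw [natDegree_mul hP0 hQ0] at h3
    have h4 : 2 * m + 2 ≤ P.natDegree := le_natDegree_of_ne_zero hP
    have h5 : Q.natDegree = 0 := by omega
    obtain ⟨β, hβ⟩ : ∃ β, Q = C β := ⟨_, eq_C_of_natDegree_eq_zero h5⟩
    rw [hβ] at hPQ hQ0 hQ
    have hβ0 : β ≠ 0 := fun h0 => hQ0 (by rw [h0, C_0])
    have h6 := congrArg (fun p => coeff p 0) hPQ
    simp only [coeff_mul_C] at h6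
    rw [coeff_C_mul, coeff_X_pow, if_neg (by omega), mul_zero] at h6
    have h7 : P.coeff 0 = 0 := (mul_eq_zero.1 h6).resolve_right hβ0
    have h8 := congrArg (fun p => coeff p (2 * m + 2)) hPQ
    simp only [coeff_mul_C] at h8
    rw [coeff_C_mul, coeff_X_pow, if_pos rfl, mul_one] at h8
    have h9 : h ∣ B.coeff 0 := by
      rw [hB, mul_coeff_zero, coeff_add, coeff_C_zero, coeff_X_pow, if_neg (by omega), add_zero]
      exact dvd_mul_left _ _
    have h10 : h ∣ β := by
      rw [coeff_C_zero, h7] at hQ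
      rcases hQ with hQ | hQ
      · rw [hQ, zero_sub]
        exact (h9.mul_left 2).neg_right
      · rw [hQ, zero_add]
        exact h9.mul_left 2
    have h11 : h ∣ 4 ^ (m + 1) * e := by
      rw [← h8]
      exact h10.mul_left _
    obtain ⟨u, hu⟩ := h4u
    rw [← hu] at h11
    exact (Units.dvd_mul_left (u := u)).1 h11
  by_cases hc : (A + B).coeff (2 * m + 2) = 0
  · have hc' : (A - B).coeff (2 * m + 2) ≠ 0 := by
      intro h0
      rw [coeff_add] at hc
      rw [coeff_sub] at h0
      have : 2 * B.coeff (2 * m + 2) = 0 := by linear_combination hc - h0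
      rcases mul_eq_zero.1 this with h | h
      · exact h2.ne_zero h
      · exact hBtop0 h
    refine key (A - B) (A + B) (by rw [mul_comm]; exact hAB) hc' (Or.inr ?_)
    rw [coeff_add, coeff_sub]
    ring
  · refine key (A + B) (A - B) hAB hc (Or.inl ?_)
    rw [coeff_add, coeff_sub]
    ring

end

end Pool.Agent.Y707.DK
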