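import Pool.Agent.Y707.DK.Cls
import Pool.Agent.Y707.PC.Kum

/-! Separability of `D + (ω + b) ^ 2`, and the constants of multiquadratic function fields. -/

set_option autoImplicit false
set_option maxHeartbeats 400000

namespace Pool.Agent.Y707.DK

open Polynomial Pool.Agent.TH943.HJ Pool.Agent.Y707.PC
open Pool.Agent.TH958.FP (As notmem mem_As_insert)

section
variable {M L : Type} [Field M] [Field L] [Algebra M L]

theorem jac_ne [CharZero M] {D b : M[X]} (hD : Odd D.natDegree)
    (hb : 2 * b.natDegree < D.natDegree) :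
    derivative D ^ 2 + 4 * D * derivative b ^ 2 ≠ 0 := by
  intro h0
  have hD0 : D.natDegree ≠ 0 := by
    intro h1
    rw [h1] at hD
    exact (by decide : ¬ Odd 0) hD
  have h1 : (derivative D).natDegree = D.natDegree - 1 := natDegree_derivative _
  have h2 : derivative D ≠ 0 := by
    intro h4
    exact hD0 (natDegree_eq_zero_of_derivative_eq_zero h4)
  by_cases hb0 : b.natDegree = 0
  · rw [eq_C_of_natDegree_eq_zero hb0, derivative_C] at h0
    have h3 : derivative D ^ 2 = 0 := by linear_combination h0
    exact h2 (pow_eq_zero_iff two_ne_zero |>.1 h3)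
  have h3 := congrArg natDegree (eq_neg_of_add_eq_zero_left h0)
  rw [natDegree_neg, natDegree_pow, h1] at h3
  have h4 : (4 * D * derivative b ^ 2 : M[X]).natDegree ≤ D.natDegree + 2 * (b.natDegree - 1) := by
    have h5 : (4 * D * derivative b ^ 2 : M[X]) = C 4 * (D * derivative b ^ 2) := by
      rw [map_ofNat]
      ring
    rw [h5]
    refine (natDegree_C_mul_le _ _).trans (natDegree_mul_le.trans (add_le_add le_rfl ?_))
    rw [natDegree_pow]
    exact Nat.mul_le_mul_left _ (natDegree_derivative_le _)
  have hD1 : 1 ≤ D.natDegree := by omega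
  have hb1 : 1 ≤ b.natDegree := by omega
  omega

theorem sep_gg [CharZero M] {ω : L} (hω : Transcendental M ω) {D b : M[X]} (hD : Odd D.natDegree)
    (hb : 2 * b.natDegree < D.natDegree) : (gg ω D b).Separable := by
  have hF : gg ω D b ≠ 0 := by
    intro h0
    have h1 := (deg_gg (ω := ω) hD hb).1
    rw [h0, natDegree_zero] at h1
    exact (by decide : ¬ Odd 0) h1
  rw [Separable]
  refine isCoprime_of_irreducible_dvd (fun h0 => hF h0.1) ?_
  intro p hp h1 h2
  have : Fact (Irreducible p) := ⟨hp⟩
  let θ : AdjoinRoot p := AdjoinRoot.root p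
  have key : ∀ q : L[X], p ∣ q → aeval θ q = 0 := by
    rintro q ⟨c, rfl⟩
    rw [map_mul]
    have : aeval θ p = 0 := by
      rw [AdjoinRoot.aeval_eq]
      exact AdjoinRoot.mk_self
    rw [this, zero_mul]
  have hup : ∀ q : M[X], aeval θ (up q : L[X]) = aeval θ q := by
    intro q
    rw [up_def, aeval_map_algebraMap]
  obtain ⟨w, hw⟩ : ∃ w, w = algebraMap L (AdjoinRoot p) ω := ⟨_, rfl⟩
  have e1 : aeval θ D + (w + aeval θ b) ^ 2 = 0 := by
    have := key _ h1
    unfold gg cc at this
    rw [map_add, map_pow, map_add, aeval_C, hup, hup, ← hw] at this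
    exact this
  have e2 : aeval θ (derivative D) + 2 * (w + aeval θ b) * aeval θ (derivative b) = 0 := by
    have := key _ h2
    unfold gg cc at this
    rw [derivative_add, derivative_pow, derivative_add, derivative_C, zero_add, up_def, up_def,
      derivative_map, derivative_map, ← up_def, ← up_def, ← up_def, map_add, map_mul, map_mul,
      map_pow, map_add, aeval_C, aeval_C, hup, hup, hup, ← hw] at this
    simp only [Nat.cast_ofNat, map_ofNat, Nat.add_one_sub_one, pow_one] at this
    exact this
  have hθ : IsAlgebraic M θ := by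
    refine ⟨_, jac_ne hD hb, ?_⟩
    have h4 : aeval θ (4 : M[X]) = 4 := map_ofNat _ _
    rw [map_add, map_mul, map_mul, map_pow, map_pow, h4]
    linear_combination (aeval θ (derivative D) - 2 * (w + aeval θ b) * aeval θ (derivative b)) * e2
      + 4 * aeval θ (derivative b) ^ 2 * e1
  have hmem : ∀ q : M[X], aeval θ q ∈ algebraicClosure M (AdjoinRoot p) := by
    intro q
    have h3 : θ ∈ algebraicClosure M (AdjoinRoot p) := mem_algebraicClosure_iff.2 hθ
    have h4 : Algebra.adjoin M {θ} ≤ (algebraicClosure M (AdjoinRoot p)).toSubalgebra :=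
      Algebra.adjoin_le (Set.singleton_subset_iff.2 h3)
    exact h4 (aeval_mem_adjoin_singleton M θ)
  have h5 : IsAlgebraic M ((w + aeval θ b) ^ 2) := by
    have : (w + aeval θ b) ^ 2 = -aeval θ D := by linear_combination e1
    rw [this]
    exact (mem_algebraicClosure_iff.1 (hmem D)).neg
  have h6 : IsAlgebraic M (w + aeval θ b) := IsAlgebraic.of_pow two_pos h5
  have h7 : IsAlgebraic M w := by
    have : w = (w + aeval θ b) - aeval θ b := by ring
    rw [this]
    exact h6.sub (mem_algebraicClosure_iff.1 (hmem b))
  rw [hw] at h7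
  exact hω ((isAlgebraic_algebraMap_iff (algebraMap L (AdjoinRoot p)).injective).1 h7)

end

section
variable {E M : Type} [Field E] [Field M] [Algebra E M] {k l : ℕ}

/-- **The field of constants.** -/
theorem const_of_algebraic [CharZero E] {ξ : Fin k → M} (hξ : AlgebraicIndependent E ξ)
    {g : Fin l → MvPolynomial (Fin k) E}
    (hg : ∀ (S : Finset (Fin l)) (δ : E), S.Nonempty → δ ≠ 0 →
      ¬ IsSquare (MvPolynomial.C δ * ∏ i ∈ S, g i)) {η : Fin l → M}
    (hη : ∀ i, η i ^ 2 = MvPolynomial.aeval ξ (g i))
    (htop : IntermediateField.adjoin E (Set.range ξ ∪ Set.range η) = ⊤)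
    (x : M) (hx : IsAlgebraic E x) : ∃ e : E, algebraMap E M e = x := by
  classical
  have hinj : Function.Injective (MvPolynomial.aeval ξ : MvPolynomial (Fin k) E →ₐ[E] M) := hξ
  let A := MvPolynomial (Fin k) E
  let _ : Algebra A M := (MvPolynomial.aeval ξ : MvPolynomial (Fin k) E →ₐ[E] M).toRingHom.toAlgebra
  have hAM : ∀ q : A, algebraMap A M q = MvPolynomial.aeval ξ q := fun q => rfl
  have hfs : FaithfulSMul A M := (faithfulSMul_iff_algebraMap_injective A M).2 hinj
  let V := FractionRing A
  let _ : Algebra V M := FractionRing.liftAlgebra A M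
  have htw : IsScalarTower A V M := FractionRing.isScalarTower_liftAlgebra A M
  have hAV : ∀ q : A, algebraMap V M (algebraMap A V q) = MvPolynomial.aeval ξ q := by
    intro q
    rw [← IsScalarTower.algebraMap_apply A V M, hAM]
  let w : Fin l → V := fun i => algebraMap A V (g i)
  have hyw : ∀ i, η i ^ 2 = algebraMap V M (w i) := fun i => by rw [hη, hAV]
  have hint : ∀ i, IsIntegral V (η i) := fun i => by
    refine IsIntegral.of_pow two_pos ?_
    rw [hyw]
    exact isIntegral_algebraMap
  have hle : ∀ s : Set (Fin l), ∀ x ∈ As V η s, IsIntegral V x := by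
    intro s x hx
    have : As V η s ≤ integralClosure V M := by
      refine Algebra.adjoin_le ?_
      rintro _ ⟨i, -, rfl⟩
      exact hint i
    exact this hx
  have hEV : ∀ (e : E), algebraMap E M e = algebraMap V M (algebraMap A V (MvPolynomial.C e)) := by
    intro e
    rw [hAV, MvPolynomial.aeval_C]
  have hVE : ∀ (s : Set (Fin l)) (e : E), algebraMap E M e ∈ As V η s := by
    intro s e
    rw [hEV]
    exact Subalgebra.algebraMap_mem _ _
  let I : IntermediateField E M :=
    { carrier := {x | x ∈ As V η Set.univ}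
      mul_mem' := fun ha hb => (As V η Set.univ).mul_mem ha hb
      add_mem' := fun ha hb => (As V η Set.univ).add_mem ha hb
      algebraMap_mem' := hVE _
      inv_mem' := fun x hx => by
        have h1 : IsAlgebraic V ((⟨x, hx⟩ : As V η Set.univ) : M) := (hle _ x hx).isAlgebraic
        exact Subalgebra.inv_mem_of_algebraic (As V η Set.univ) (x := ⟨x, hx⟩) h1 }
  have hI : (⊤ : IntermediateField E M) ≤ I := by
    rw [← htop, IntermediateField.adjoin_le_iff]
    rintro x (⟨i, rfl⟩ | ⟨i, rfl⟩)
    · show ξ i ∈ As V η Set.univ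
      have h1 : ξ i = algebraMap V M (algebraMap A V (MvPolynomial.X i)) := by
        rw [hAV, MvPolynomial.aeval_X]
      rw [h1]
      exact Subalgebra.algebraMap_mem _ _
    · show η i ∈ As V η Set.univ
      exact Algebra.subset_adjoin ⟨i, Set.mem_univ i, rfl⟩
  have hall : ∀ x : M, x ∈ As V η Set.univ := fun x => hI (IntermediateField.mem_top (x := x))
  have halg : Algebra.IsAlgebraic V M := ⟨fun x => (hle _ x (hall x)).isAlgebraic⟩
  have h2 : (2 : V) ≠ 0 := by
    intro h0
    have h1 : algebraMap V M 2 = 0 := by rw [h0, map_zero]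
    rw [map_ofNat] at h1
    have h3 : algebraMap E M 2 = 0 := by rw [map_ofNat]; exact h1
    exact two_ne_zero ((map_eq_zero _).1 h3)
  have h2M : (2 : M) ≠ 0 := by
    intro h0
    apply h2
    apply (algebraMap V M).injective
    rw [map_ofNat, map_zero]
    exact h0
  -- squares
  have hsq : ∀ (S : Finset (Fin l)) (δ : E), S.Nonempty → δ ≠ 0 →
      ¬ IsSquare (algebraMap A V (MvPolynomial.C δ) * ∏ i ∈ S, w i) := by
    rintro S δ hS hδ ⟨u, hu⟩
    apply hg S δ hS hδ
    have h4 : algebraMap A V (MvPolynomial.C δ * ∏ i ∈ S, g i) = u * u := by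
      rw [map_mul, map_prod]
      exact hu
    have h5 : IsIntegral A u := by
      refine IsIntegral.of_pow two_pos ?_
      rw [sq, ← h4]
      exact isIntegral_algebraMap
    obtain ⟨v, rfl⟩ := (IsIntegrallyClosed.isIntegral_iff (R := A) (K := V)).1 h5
    refine ⟨v, ?_⟩
    apply IsFractionRing.injective A V
    rw [h4, map_mul]
  -- the induction
  have key : ∀ s : Finset (Fin l), ∀ x ∈ As V η (s : Set (Fin l)), IsAlgebraic E x →
      ∃ e : E, algebraMap E M e = x := by
    intro s
    induction s using Finset.induction_on with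
    | empty =>
      intro x hx hxa
      rw [Finset.coe_empty, As, Set.image_empty, Algebra.adjoin_empty, Algebra.mem_bot] at hx
      obtain ⟨v, rfl⟩ := hx
      have hxi : IsIntegral E (algebraMap V M v) := hxa.isIntegral
      have h5 : IsIntegral A v := by
        obtain ⟨Q, hQ, hQ0⟩ := hxi
        refine ⟨Q.map MvPolynomial.C, hQ.map _, ?_⟩
        apply (algebraMap V M).injective
        rw [map_zero, ← hQ0, hom_eval₂, eval₂_map]
        congr 1
        ext e
        exact (hEV e).symm
      obtain ⟨p, rfl⟩ := (IsIntegrallyClosed.isIntegral_iff (R := A) (K := V)).1 h5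
      rw [hAV] at hxi ⊢
      have h6 : IsIntegral E p := by
        obtain ⟨Q, hQ, hQ0⟩ := hxi
        refine ⟨Q, hQ, ?_⟩
        apply hinj
        rw [map_zero, ← hQ0]
        have : (MvPolynomial.aeval ξ : MvPolynomial (Fin k) E →ₐ[E] M) (eval₂ (algebraMap E A) p Q) =
            eval₂ ((MvPolynomial.aeval ξ : MvPolynomial (Fin k) E →ₐ[E] M).toRingHom.comp
              (algebraMap E A)) ((MvPolynomial.aeval ξ : MvPolynomial (Fin k) E →ₐ[E] M) p) Q :=
          hom_eval₂ _ _ (MvPolynomial.aeval ξ : MvPolynomial (Fin k) E →ₐ[E] M).toRingHom _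
        rw [this]
        congr 1
        ext e
        exact ((MvPolynomial.aeval ξ : MvPolynomial (Fin k) E →ₐ[E] M).commutes e)
      by_cases hp0 : p = 0
      · exact ⟨0, by rw [hp0, map_zero, map_zero]⟩
      have h7 : IsUnit p := h6.isUnit hp0
      rw [MvPolynomial.isUnit_iff_eq_C_of_isReduced] at h7
      obtain ⟨e, -, rfl⟩ := h7
      exact ⟨e, by rw [MvPolynomial.aeval_C]⟩
    | insert i s hi ih =>
      intro x hx hxa
      rw [Finset.coe_insert] at hx
      obtain ⟨u, hu, v, hv, hz⟩ := mem_As_insert hyw i (s : Set (Fin l)) x hx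
      have hni : η i ∉ As V η (s : Set (Fin l)) := by
        refine notmem h2 hyw s (w i) (η i) (hyw i) fun S hS => ?_
        have h3 := hsq (insert i S) 1 (Finset.insert_nonempty i S) one_ne_zero
        rwa [MvPolynomial.C_1, map_one, one_mul, Finset.prod_insert fun h => hi (hS h)] at h3
      -- the conjugate
      have hconj : ∀ Q : E[X], ∃ a ∈ As V η (s : Set (Fin l)), ∃ b ∈ As V η (s : Set (Fin l)),
          aeval (u + v * η i) Q = a + b * η i ∧ aeval (u - v * η i) Q = a - b * η i := by
        intro Q
        induction Q using Polynomial.induction_on with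
        | C c => exact ⟨_, hVE _ c, 0, zero_mem _, by rw [aeval_C]; ring, by rw [aeval_C]; ring⟩
        | add p q hp hq =>
          obtain ⟨a, ha, b, hb, e1, e2⟩ := hp
          obtain ⟨a', ha', b', hb', e1', e2'⟩ := hq
          refine ⟨a + a', add_mem ha ha', b + b', add_mem hb hb', ?_, ?_⟩
          · rw [map_add, e1, e1']
            ring
          · rw [map_add, e2, e2']
            ring
        | monomial n c hp =>
          obtain ⟨a, ha, b, hb, e1, e2⟩ := hp
          have hc : (C c * X ^ (n + 1) : E[X]) = C c * X ^ n * X := by ring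
          refine ⟨a * u + b * v * algebraMap V M (w i), ?_, a * v + b * u, ?_, ?_, ?_⟩
          · exact add_mem (mul_mem ha hu) (mul_mem (mul_mem hb hv) (Subalgebra.algebraMap_mem _ _))
          · exact add_mem (mul_mem ha hv) (mul_mem hb hu)
          · rw [hc, map_mul, e1, aeval_X, ← hyw]
            ring
          · rw [hc, map_mul, e2, aeval_X, ← hyw]
            ring
      have hxa' : IsAlgebraic E (u - v * η i) := by
        obtain ⟨Q, hQ0, hQ⟩ := hxa
        refine ⟨Q, hQ0, ?_⟩
        obtain ⟨a, ha, b, hb, e1, e2⟩ := hconj Q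
        rw [hz, e1] at hQ
        have hb0 : b = 0 := by
          by_contra hb0
          apply hni
          have h1 : η i = -a * b⁻¹ := by
            rw [eq_mul_inv_iff_mul_eq₀ hb0]
            linear_combination hQ
          rw [h1]
          exact mul_mem (neg_mem ha) (Subalgebra.inv_mem_of_algebraic (As V η (s : Set (Fin l)))
            (x := ⟨_, hb⟩) (Algebra.IsAlgebraic.isAlgebraic _))
        rw [e2, hb0]
        rw [hb0] at hQ
        linear_combination hQ
      have h2a : IsAlgebraic E (2 : M) := by
        have : (2 : M) = algebraMap E M 2 := by rw [map_ofNat]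
        rw [this]
        exact isAlgebraic_algebraMap _
      have hua : IsAlgebraic E u := by
        have : u = (x + (u - v * η i)) * (2 : M)⁻¹ := by
          rw [eq_mul_inv_iff_mul_eq₀ h2M, hz]
          ring
        rw [this]
        exact (hxa.add hxa').mul h2a.inv
      have hva : IsAlgebraic E (v * η i) := by
        have : v * η i = x - u := by rw [hz]; ring
        rw [this]
        exact hxa.sub hua
      obtain ⟨e, he⟩ := ih u hu hua
      have hv2 : v ^ 2 * algebraMap V M (w i) = (v * η i) ^ 2 := by
        rw [mul_pow, hyw]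
      obtain ⟨δ, hδ⟩ := ih (v ^ 2 * algebraMap V M (w i))
        (mul_mem (pow_mem hv 2) (Subalgebra.algebraMap_mem _ _)) (by rw [hv2]; exact hva.pow 2)
      by_cases hv0 : v = 0
      · exact ⟨e, by rw [hz, hv0, he]; ring⟩
      exfalso
      have hw0 : algebraMap V M (w i) ≠ 0 := by
        intro h0
        apply hsq {i} 1 (Finset.singleton_nonempty i) one_ne_zero
        have : w i = 0 := (algebraMap V M).injective (by rw [h0, map_zero])
        rw [Finset.prod_singleton, this, mul_zero]
        exact ⟨0, by ring⟩
      have hδ0 : δ ≠ 0 := by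
        rintro rfl
        rw [map_zero] at hδ
        exact mul_ne_zero (pow_ne_zero 2 hv0) hw0 hδ.symm
      refine notmem h2 hyw s (algebraMap A V (MvPolynomial.C δ) * w i)
        (v * algebraMap V M (w i)) ?_ (fun S hS => ?_) (mul_mem hv (Subalgebra.algebraMap_mem _ _))
      · rw [map_mul, ← hEV, hδ]
        ring
      · have h3 := hsq (insert i S) δ (Finset.insert_nonempty i S) hδ0
        rwa [Finset.prod_insert fun h => hi (hS h), ← mul_assoc] at h3
  exact key Finset.univ x (by rw [Finset.coe_univ]; exact hall x) hx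

/-- **Irreducible polynomials over the constants stay irreducible.** -/
theorem irreducible_const {E M : Type} [Field E] [Field M] [Algebra E M]
    (h : ∀ x : M, IsAlgebraic E x → ∃ e : E, algebraMap E M e = x) {p : E[X]} (hp : Irreducible p)
    (hm : p.Monic) : Irreducible (p.map (algebraMap E M)) := by
  have hlift : ∀ g : M[X], g.Monic → g ∣ p.map (algebraMap E M) →
      ∃ g' : E[X], g'.map (algebraMap E M) = g ∧ g'.Monic := by
    intro g hg hd
    obtain ⟨g1, hg1⟩ := integralClosure.mem_lifts_of_monic_of_dvd_map (R := E) M hm hg hd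
    have hc : ∀ i, ∃ e : E, algebraMap E M e = g.coeff i := by
      intro i
      apply h
      have h1 : algebraMap (integralClosure E M) M (g1.coeff i) = g.coeff i := by
        rw [← hg1]
        exact (coeff_map _ _).symm
      rw [← h1]
      exact (g1.coeff i).2.isAlgebraic
    have hl : g ∈ lifts (algebraMap E M) := by
      rw [lifts_iff_coeff_lifts]
      intro i
      obtain ⟨e, he⟩ := hc i
      exact ⟨e, he⟩
    obtain ⟨g', hg', -, hg'm⟩ := lifts_and_degree_eq_and_monic hl hg
    exact ⟨g', hg', hg'm⟩
  have hpm := hm.map (algebraMap E M)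
  rw [hpm.irreducible_iff_natDegree (p := p.map (algebraMap E M))]
  constructor
  · intro h1
    have h2 : p.map (algebraMap E M) = (1 : E[X]).map (algebraMap E M) := by
      rw [h1, Polynomial.map_one]
    have h3 := Polynomial.map_injective _ (algebraMap E M).injective h2
    exact hp.not_isUnit (by rw [h3]; exact isUnit_one)
  · intro f g hf hg hfg
    obtain ⟨f', rfl, hf'⟩ := hlift f hf ⟨g, hfg.symm⟩
    obtain ⟨g', rfl, hg'⟩ := hlift g hg ⟨_, by rw [mul_comm]; exact hfg.symm⟩
    rw [← Polynomial.map_mul] at hfg
    have h3 := Polynomial.map_injective _ (algebraMap E M).injective hfg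
    rw [natDegree_map, natDegree_map]
    rcases hp.isUnit_or_isUnit h3.symm with hu | hu
    · exact Or.inl (natDegree_eq_zero_of_isUnit hu)
    · exact Or.inr (natDegree_eq_zero_of_isUnit hu)

end

end Pool.Agent.Y707.DK
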