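import Pool.Agent.Y707.DK.Asy
import Pool.Agent.Y707.DK.Alg
import Pool.Agent.Y707.SF.Fin

/-! Residues for numbers of roots modulo primes. -/

set_option autoImplicit false
set_option maxHeartbeats 400000

namespace Pool.Agent.Y707.DK

open Polynomial NumberField IsDedekindDomain Filter Topology
open Pool.Agent.H921R2.TatePole (nm two_le_nm below deg nm_eq nm_summable fiber_card_le kerPrime
  kerPrime_bijective)
open Pool.Agent.W353.FB (finite_below)
open Pool.Agent.Y707.RX (cmb)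
open Pool.Agent.Y707.PR
open Pool.Agent.Y707.PC (residue_iso ae_notMem)

section
variable {F : Type} [Field F] [NumberField F]

/-- the number of the roots modulo `v` -/
noncomputable def nrv (D : (𝓞 F)[X]) (v : HeightOneSpectrum (𝓞 F)) : ℕ :=
  nr D (Ideal.Quotient.mk v.asIdeal)

theorem nrv_ker (D : (𝓞 F)[X]) (p : Nat.Primes) (ψ : 𝓞 F →+* ZMod (p : ℕ)) :
    haveI : Fact (p : ℕ).Prime := ⟨p.2⟩
    nrv D (kerPrime p ψ).1.1 = nr D ψ := by
  haveI : Fact (p : ℕ).Prime := ⟨p.2⟩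
  obtain ⟨θ, hθ⟩ := residue_iso (kerPrime p ψ).1.1 ψ rfl (by
    have h1 : nm (kerPrime p ψ).1.1 = p := Pool.Agent.H341R2.nm_kerPrime p ψ
    rw [Nat.card_zmod]
    exact h1.symm)
  have hfin := Finite.of_equiv _ θ.symm.toEquiv
  let _ := Fintype.ofFinite (𝓞 F ⧸ (kerPrime p ψ).1.1.asIdeal)
  unfold nrv
  rw [← nr_iso (Ideal.Quotient.mk (kerPrime p ψ).1.1.asIdeal) θ, hθ]

theorem sqrt_rpow (p : Nat.Primes) : ((p : ℕ) : ℝ) ^ (-(1 / 2) : ℝ) * Real.sqrt (p : ℕ) = 1 := by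
  have hp : (0 : ℝ) < ((p : ℕ) : ℝ) := by exact_mod_cast p.2.pos
  rw [Real.sqrt_eq_rpow, ← Real.rpow_add hp]
  norm_num

open Classical in
/-- **The comparison at the prime numbers.** -/
theorem compare {D : (𝓞 F)[X]} (hm : D.Monic) (hs : (D.map (algebraMap (𝓞 F) F)).Separable)
    {b : HeightOneSpectrum (𝓞 F) → ℝ} {B : ℝ}
    (hb : ∀ᶠ v in cofinite, |b v - nrv D v| * Real.sqrt (nm v) ≤ B) (n : ℤ)
    (R : Finset (HeightOneSpectrum (𝓞 F))) :
    ∃ (κ : Type) (_ : Fintype κ) (L : κ → Type) (_ : ∀ j, Field (L j)) (_ : ∀ j, NumberField (L j))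
      (a : κ → ℝ), ∑ j, a j = ((n + numFactors (D.map (algebraMap (𝓞 F) F)) : ℤ) : ℝ) ∧
      ∀ᶠ p : Nat.Primes in cofinite,
        ‖co (fun v : HeightOneSpectrum (𝓞 F) => if v ∈ R then (0 : ℂ) else ((n + b v : ℝ) : ℂ))
          (p, 0) + cmb L a p‖ ≤
        (Module.finrank ℚ F * |B|) * ((p : ℕ) : ℝ) ^ (-(1 / 2) : ℝ) := by
  obtain ⟨κ, hκ, L, hL1, hL2, hcard, hk⟩ := roots_fields hm hs
  let L' : Option κ → Type := fun j => match j with
    | none => F
    | some i => L i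
  let i1 : ∀ j, Field (L' j) := fun j => match j with
    | none => inferInstanceAs (Field F)
    | some i => hL1 i
  have i2 : ∀ j, NumberField (L' j) := fun j => match j with
    | none => inferInstanceAs (NumberField F)
    | some i => hL2 i
  let a' : Option κ → ℝ := fun j => j.elim (n : ℝ) fun _ => 1
  refine ⟨Option κ, inferInstance, L', i1, i2, a', ?_, ?_⟩
  · rw [Fintype.sum_option]
    show (n : ℝ) + ∑ _i : κ, (1 : ℝ) = _
    rw [Finset.sum_const, Finset.card_univ, hcard, nsmul_eq_mul, mul_one]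
    push_cast
    rfl
  rw [Filter.eventually_cofinite] at hb
  filter_upwards [hk, finite_below (F := F) R.finite_toSet, finite_below (F := F) hb]
    with p h1 h2 h3
  have : Fact (p : ℕ).Prime := ⟨p.2⟩
  have hfin := Pool.Agent.H921R2.TatePole.hom_finite (K := F) p
  let _ := Fintype.ofFinite (𝓞 F →+* ZMod (p : ℕ))
  have hp0 : (0 : ℝ) < ((p : ℕ) : ℝ) ^ (-(1 / 2) : ℝ) := by
    have : (0 : ℝ) < ((p : ℕ) : ℝ) := by exact_mod_cast p.2.pos
    positivity
  have hcmb : cmb L' a' p = (n : ℂ) * (Nat.card (𝓞 F →+* ZMod (p : ℕ)) : ℂ) +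
      ((∑ j, Nat.card (𝓞 (L j) →+* ZMod (p : ℕ)) : ℕ) : ℂ) := by
    unfold cmb
    rw [Fintype.sum_option]
    congr 1
    push_cast
    refine Finset.sum_congr rfl fun j _ => ?_
    show (((1 : ℝ) : ℝ) : ℂ) * _ = _
    rw [Complex.ofReal_one, one_mul]
  have h4 : ∀ ψ : 𝓞 F →+* ZMod (p : ℕ), (if (kerPrime p ψ).1.1 ∈ R then (0 : ℂ) else
      ((n + b (kerPrime p ψ).1.1 : ℝ) : ℂ)) = (n : ℂ) + (nr D ψ : ℂ) +
        ((b (kerPrime p ψ).1.1 - nrv D (kerPrime p ψ).1.1 : ℝ) : ℂ) := by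
    intro ψ
    have h5 : (kerPrime p ψ).1.1 ∉ R := h2 ψ
    rw [if_neg h5, ← nrv_ker D p ψ]
    push_cast
    ring
  have h6 : co (fun v : HeightOneSpectrum (𝓞 F) => if v ∈ R then (0 : ℂ) else ((n + b v : ℝ) : ℂ))
      (p, 0) + cmb L' a' p = -∑ ψ : 𝓞 F →+* ZMod (p : ℕ),
        ((b (kerPrime p ψ).1.1 - nrv D (kerPrime p ψ).1.1 : ℝ) : ℂ) := by
    rw [sum_deg_one, finsum_eq_sum_of_fintype, hcmb, ← h1]
    simp only [finsum_eq_sum_of_fintype]
    rw [Finset.sum_congr rfl fun ψ _ => h4 ψ, Finset.sum_add_distrib, Finset.sum_add_distrib,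
      Finset.sum_const, Finset.card_univ, nsmul_eq_mul, Nat.card_eq_fintype_card]
    unfold nr
    push_cast
    ring
  rw [h6, norm_neg]
  refine (norm_sum_le _ _).trans ?_
  have h7 : ∀ ψ ∈ (Finset.univ : Finset (𝓞 F →+* ZMod (p : ℕ))),
      ‖((b (kerPrime p ψ).1.1 - nrv D (kerPrime p ψ).1.1 : ℝ) : ℂ)‖ ≤
        |B| * ((p : ℕ) : ℝ) ^ (-(1 / 2) : ℝ) := by
    intro ψ _
    have h8 : |b (kerPrime p ψ).1.1 - nrv D (kerPrime p ψ).1.1| *
        Real.sqrt (nm (kerPrime p ψ).1.1) ≤ B := by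
      by_contra hcon
      exact h3 ψ hcon
    have h9 : nm (kerPrime p ψ).1.1 = p := Pool.Agent.H341R2.nm_kerPrime p ψ
    rw [h9] at h8
    rw [Complex.norm_real, Real.norm_eq_abs]
    have h10 := mul_le_mul_of_nonneg_right (h8.trans (le_abs_self B)) hp0.le
    rw [mul_assoc, mul_comm (Real.sqrt _), sqrt_rpow, mul_one] at h10
    exact h10
  refine (Finset.sum_le_card_nsmul _ _ _ h7).trans ?_
  rw [nsmul_eq_mul, Finset.card_univ, mul_assoc]
  refine mul_le_mul_of_nonneg_right ?_ (by positivity)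
  have h11 := H332.PIT.hc_cast_le (K := F) p.2
  rwa [Nat.card_eq_fintype_card] at h11

open Classical in
/-- **The residue for the numbers of roots.** -/
theorem residue_nr {D : (𝓞 F)[X]} (hm : D.Monic) (hs : (D.map (algebraMap (𝓞 F) F)).Separable)
    {b : HeightOneSpectrum (𝓞 F) → ℝ} {B : ℝ}
    (hb : ∀ᶠ v in cofinite, |b v - nrv D v| * Real.sqrt (nm v) ≤ B) {B' : ℝ}
    (hB : ∀ v, |b v| ≤ B') (n : ℤ) (R : Finset (HeightOneSpectrum (𝓞 F))) :
    ∃ G : ℂ → ℂ, AnalyticAt ℂ G 1 ∧ ∀ᶠ w in 𝓝 (1 : ℂ), 1 < w.re →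
      ∑' v : HeightOneSpectrum (𝓞 F), (if v ∈ R then 0 else ((n + b v : ℝ) : ℂ)) *
        (Real.log (nm v) : ℂ) * ((nm v : ℕ) : ℂ) ^ (-w) =
        ((n + numFactors (D.map (algebraMap (𝓞 F) F)) : ℤ) : ℂ) / (w - 1) + G w := by
  obtain ⟨κ, hκ, L, hL1, hL2, a, ha, h⟩ := compare hm hs hb n R
  exact residue_of (c := fun v => if v ∈ R then (0 : ℂ) else ((n + b v : ℝ) : ℂ))
    (B := |(n : ℝ)| + B') (fun v => by
      have hB0 : 0 ≤ B' := (abs_nonneg _).trans (hB v)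
      split_ifs
      · rw [norm_zero]
        positivity
      · rw [Complex.norm_real, Real.norm_eq_abs]
        exact (abs_add_le _ _).trans (by linarith [hB v])) h ha

/-- a bound for almost all primes gives one for all primes -/
theorem bound_fin {e : HeightOneSpectrum (𝓞 F) → ℝ} {B : ℝ} (h : ∀ᶠ v in cofinite, |e v| ≤ B) :
    ∃ B' : ℝ, ∀ v, |e v| ≤ B' := by
  rw [Filter.eventually_cofinite] at h
  refine ⟨|B| + ∑ v ∈ h.toFinset, |e v|, fun v => ?_⟩
  have h0 : 0 ≤ ∑ v ∈ h.toFinset, |e v| := Finset.sum_nonneg fun v _ => abs_nonneg _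
  by_cases hv : |e v| ≤ B
  · linarith [le_abs_self B]
  · have h2 : |e v| ≤ ∑ v ∈ h.toFinset, |e v| :=
      Finset.single_le_sum (f := fun v => |e v|) (fun v _ => abs_nonneg _)
        (h.mem_toFinset.2 hv)
    linarith [abs_nonneg B]

theorem one_le_sqrt_nm (v : HeightOneSpectrum (𝓞 F)) : (1 : ℝ) ≤ Real.sqrt (nm v) := by
  rw [Real.one_le_sqrt]
  have h := two_le_nm v
  have : 1 ≤ nm v := by omega
  exact_mod_cast this

theorem nrv_le {D : (𝓞 F)[X]} (hm : D.Monic) (v : HeightOneSpectrum (𝓞 F)) :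
    nrv D v ≤ D.natDegree := by
  have hfin := Pool.Agent.H341R2.finite_v v
  let _ := Fintype.ofFinite (𝓞 F ⧸ v.asIdeal)
  exact nr_le hm _

end

section
variable {K : Type} [Field K] [NumberField K] {k l r g : ℕ}
  {G : Fin l → MvPolynomial (Fin k) (𝓞 K)}
  {D₀ : (𝓞 K)[X]} {δ : Fin r → MvPolynomial (Fin k) (𝓞 K)}
  {b : (MvPolynomial (Fin k) (𝓞 K))[X]}

theorem nr_base (E : IntermediateField K (AlgebraicClosure K)) {κ : Type} [Field κ]
    (φ : 𝓞 E →+* κ) : nr (D₀.map (algebraMap (𝓞 K) (𝓞 E))) φ =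
      nr D₀ (φ.comp (algebraMap (𝓞 K) (𝓞 E))) := by
  unfold nr
  simp only [eval₂_map]

theorem map_base (E : IntermediateField K (AlgebraicClosure K)) [NumberField E] :
    (D₀.map (algebraMap (𝓞 K) (𝓞 E))).map (algebraMap (𝓞 E) E) =
      D₀.map ((algebraMap K E).comp (algebraMap (𝓞 K) K)) := by
  rw [Polynomial.map_map]
  rfl

variable (G D₀ δ b) in
/-- the averages at the primes of `E` -/
noncomputable def av (E : IntermediateField K (AlgebraicClosure K)) [NumberField E]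
    (v : HeightOneSpectrum (𝓞 E)) : ℝ :=
  averageQuad G D₀ δ b ((Ideal.Quotient.mk v.asIdeal).comp (algebraMap (𝓞 K) (𝓞 E)))

/-- the asymptotics at the primes of `E` -/
theorem av_asy (h : IsQuadPencil g G D₀ δ b)
    (E : IntermediateField K (AlgebraicClosure K)) [NumberField E] :
    ∃ B : ℝ, ∀ᶠ v in cofinite, |(-av G D₀ δ b E v - ((r : ℤ) - 1 : ℤ)) -
      nrv (D₀.map (algebraMap (𝓞 K) (𝓞 E))) v| * Real.sqrt (nm v) ≤ B := by
  obtain ⟨B, c, hB, hc, hasy⟩ := averageQuad_asy h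
  refine ⟨B, ?_⟩
  have hc' : algebraMap (𝓞 K) (𝓞 E) c ≠ 0 := by
    intro h0
    exact hc ((map_eq_zero_iff _ (FaithfulSMul.algebraMap_injective (𝓞 K) (𝓞 E))).1 h0)
  filter_upwards [ae_notMem hc'] with v hv
  have hfin := Pool.Agent.H341R2.finite_v v
  let _ := Fintype.ofFinite (𝓞 E ⧸ v.asIdeal)
  have h3 := hasy (𝓞 E ⧸ v.asIdeal) ((Ideal.Quotient.mk v.asIdeal).comp
    (algebraMap (𝓞 K) (𝓞 E))) (by
      rw [RingHom.comp_apply, Ne, Ideal.Quotient.eq_zero_iff_mem]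
      exact hv)
  have e1 : Fintype.card (𝓞 E ⧸ v.asIdeal) = nm v := by
    rw [← Nat.card_eq_fintype_card]
    rfl
  rw [e1] at h3
  have e2 : nrv (D₀.map (algebraMap (𝓞 K) (𝓞 E))) v =
      nr D₀ ((Ideal.Quotient.mk v.asIdeal).comp (algebraMap (𝓞 K) (𝓞 E))) := nr_base E _
  rw [e2]
  refine le_trans (le_of_eq ?_) h3
  congr 1
  rw [← abs_neg]
  congr 1
  unfold av
  push_cast
  ring

theorem av_bound (h : IsQuadPencil g G D₀ δ b)
    (E : IntermediateField K (AlgebraicClosure K)) [NumberField E] :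
    ∃ B : ℝ, ∀ v, |-av G D₀ δ b E v| ≤ B := by
  obtain ⟨B, hB⟩ := av_asy h E
  refine bound_fin (B := B + D₀.natDegree + |(((r : ℤ) - 1 : ℤ) : ℝ)|) ?_
  filter_upwards [hB] with v hv
  have h1 := one_le_sqrt_nm v
  have h2 : |(-av G D₀ δ b E v - ((r : ℤ) - 1 : ℤ)) -
      nrv (D₀.map (algebraMap (𝓞 K) (𝓞 E))) v| ≤ B :=
    (le_mul_of_one_le_right (abs_nonneg _) h1).trans hv
  have h3 : (nrv (D₀.map (algebraMap (𝓞 K) (𝓞 E))) v : ℝ) ≤ D₀.natDegree := by
    have := nrv_le (h.monic.map (algebraMap (𝓞 K) (𝓞 E))) v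
    rw [h.monic.natDegree_map] at this
    exact_mod_cast this
  have h4 : (0 : ℝ) ≤ nrv (D₀.map (algebraMap (𝓞 K) (𝓞 E))) v := Nat.cast_nonneg _
  have e : -av G D₀ δ b E v = ((-av G D₀ δ b E v - ((r : ℤ) - 1 : ℤ)) -
      nrv (D₀.map (algebraMap (𝓞 K) (𝓞 E))) v) +
      nrv (D₀.map (algebraMap (𝓞 K) (𝓞 E))) v + (((r : ℤ) - 1 : ℤ) : ℝ) := by ring
  rw [e]
  refine (abs_add_le _ _).trans (add_le_add ((abs_add_le _ _).trans (add_le_add h2 ?_)) le_rfl)
  rw [abs_of_nonneg h4]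
  exact h3

theorem rank_pos (h : IsQuadPencil g G D₀ δ b)
    (E : IntermediateField K (AlgebraicClosure K)) :
    1 ≤ r + numFactors (D₀.map ((algebraMap K E).comp (algebraMap (𝓞 K) K))) := by
  by_contra hcon
  have h1 : r = 0 := by omega
  have h2 : numFactors (D₀.map ((algebraMap K E).comp (algebraMap (𝓞 K) K))) = 0 := by omega
  have hd := h.degree
  have h3 : 0 < (D₀.map ((algebraMap K E).comp (algebraMap (𝓞 K) K))).natDegree := by
    rw [h.monic.natDegree_map]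
    omega
  unfold numFactors at h2
  rw [Multiset.card_eq_zero] at h2
  have h4 := UniqueFactorizationMonoid.factors_prod (h.monic.map ((algebraMap K E).comp
    (algebraMap (𝓞 K) K))).ne_zero
  rw [h2, Multiset.prod_zero] at h4
  have h5 := natDegree_eq_zero_of_isUnit (h4.isUnit isUnit_one)
  omega

/-- **The residue.** -/
theorem quad_residue (h : IsQuadPencil g G D₀ δ b)
    (E : IntermediateField K (AlgebraicClosure K)) [NumberField E]
    (R : Finset (HeightOneSpectrum (𝓞 E))) :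
    HasResidue R (fun v => -averageQuad G D₀ δ b
      ((Ideal.Quotient.mk v.asIdeal).comp (algebraMap (𝓞 K) (𝓞 E)))) 1 (quadRank r D₀ E) := by
  classical
  obtain ⟨B, hB⟩ := av_asy h E
  obtain ⟨B', hB'⟩ := av_bound h E
  have hm : (D₀.map (algebraMap (𝓞 K) (𝓞 E))).Monic := h.monic.map _
  have hs : ((D₀.map (algebraMap (𝓞 K) (𝓞 E))).map (algebraMap (𝓞 E) E)).Separable := by
    rw [map_base, ← Polynomial.map_map]
    exact h.separable.map
  constructor
  · intro s hs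
    have h1 := summable_log (F := E) (c := fun v => ((-av G D₀ δ b E v : ℝ) : ℂ)) (B := B')
      (fun v => by
        rw [Complex.norm_real]
        exact hB' v) hs
    exact h1.comp_injective Subtype.val_injective
  · obtain ⟨H, hH, hw⟩ := residue_nr hm hs hB
      (B' := B' + |(((r : ℤ) - 1 : ℤ) : ℝ)|) (fun v => by
        refine (abs_sub _ _).trans ?_
        have := hB' v
        linarith) ((r : ℤ) - 1) R
    refine ⟨H, by rw [Complex.ofReal_one]; exact hH, ?_⟩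
    rw [Complex.ofReal_one]
    filter_upwards [hw] with s hs h1
    rw [series_eq]
    have h2 := hs h1
    have h3 : (((r : ℤ) - 1 + numFactors ((D₀.map (algebraMap (𝓞 K) (𝓞 E))).map
        (algebraMap (𝓞 E) E)) : ℤ) : ℂ) = ((quadRank r D₀ E : ℝ) : ℂ) := by
      rw [map_base]
      have h4 := rank_pos h E
      unfold quadRank
      push_cast [Nat.cast_sub h4]
      ring
    rw [h3] at h2
    rw [← h2]
    refine tsum_congr fun v => ?_
    congr 2
    split_ifs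
    · rfl
    · push_cast
      unfold av
      ring

end

end Pool.Agent.Y707.DK
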