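import Pool.Agent.Y707.DK.Res
import Pool.Agent.W353.FB.Final

/-! Natural averages for numbers of roots modulo primes. -/

set_option autoImplicit false
set_option maxHeartbeats 400000

namespace Pool.Agent.Y707.DK

open Polynomial NumberField IsDedekindDomain Filter Topology
open Pool.Agent.H921R2.TatePole (nm two_le_nm kerPrime)
open Pool.Agent.W353.FB (finite_below average average_eq)
open Pool.Agent.W385.TT (PA PA_low PA_hc PA_finite PA_sub PA_mul PA_sum PA_add pc pc_nonneg)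
open Pool.Agent.H341R2 (low)

/-- the mean of a null sequence -/
theorem PA_null {a : Nat.Primes → ℝ} (h : ∀ ε : ℝ, 0 < ε → ∀ᶠ p in cofinite, |a p| ≤ ε) :
    Tendsto (PA a) atTop (𝓝 0) := by
  classical
  rw [Metric.tendsto_nhds]
  intro ε hε
  have h1 := h (ε / 2) (by positivity)
  rw [Filter.eventually_cofinite] at h1
  have h2 : Tendsto (PA fun p => if |a p| ≤ ε / 2 then 0 else a p) atTop (𝓝 0) :=
    PA_finite h1 fun p hp => by
      rw [Set.mem_ofPred_eq, not_not] at hp
      exact if_pos hp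
  have h3 := (Metric.tendsto_nhds.1 h2) (ε / 2) (by positivity)
  filter_upwards [h3] with X hX
  rw [Real.dist_eq, sub_zero] at hX ⊢
  have e : PA a X = (PA (fun p => if |a p| ≤ ε / 2 then 0 else a p) X) +
      PA (fun p => if |a p| ≤ ε / 2 then a p else 0) X := by
    rw [← PA_add]
    congr 1
    funext p
    split_ifs <;> ring
  have h4 : |PA (fun p => if |a p| ≤ ε / 2 then a p else 0) X| ≤ ε / 2 := by
    unfold PA
    rw [abs_div, abs_of_nonneg (pc_nonneg X)]
    refine div_le_of_le_mul₀ (pc_nonneg X) (by positivity) ?_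
    refine (Finset.abs_sum_le_sum_abs _ _).trans ?_
    have h5 : ∀ p ∈ Pool.Agent.H126U.PX X, |if |a p| ≤ ε / 2 then a p else 0| ≤ ε / 2 := by
      intro p _
      split_ifs with h6
      · exact h6
      · rw [abs_zero]
        positivity
    refine (Finset.sum_le_card_nsmul _ _ _ h5).trans ?_
    rw [nsmul_eq_mul, Pool.Agent.H126U.card_PX, mul_comm]
    exact le_refl _
  rw [e]
  refine (abs_add_le _ _).trans_lt ?_
  linarith

section
variable {F : Type} [Field F] [NumberField F]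

theorem natural_nr {D : (𝓞 F)[X]} (hm : D.Monic) (hs : (D.map (algebraMap (𝓞 F) F)).Separable)
    {b : HeightOneSpectrum (𝓞 F) → ℝ} {B : ℝ} (n : ℤ)
    (hb : ∀ᶠ v in cofinite, |b v - n - nrv D v| * Real.sqrt (nm v) ≤ B) {B' : ℝ}
    (hB : ∀ v, |b v| ≤ B') (R : Finset (HeightOneSpectrum (𝓞 F))) :
    Tendsto (average R b) atTop
      (𝓝 ((n + numFactors (D.map (algebraMap (𝓞 F) F)) : ℤ) : ℝ)) := by
  classical
  obtain ⟨κ, hκ, L, hL1, hL2, hcard, hk⟩ := roots_fields hm hs
  have h1 := Pool.Agent.W353.SP.LA_EN R (φ := b) (ψ := b) ⟨B', hB⟩ fun _ _ => rfl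
  have h2 := PA_low b hB
  -- the main term
  have h3 : Tendsto (PA fun p => (n : ℝ) * (Pool.Agent.H921R2.TatePole.hc (𝓞 F) (p : ℕ) : ℝ) +
      ∑ j, (Pool.Agent.H921R2.TatePole.hc (𝓞 (L j)) (p : ℕ) : ℝ)) atTop
      (𝓝 ((n : ℝ) * 1 + ∑ _j : κ, (1 : ℝ))) := by
    have h4 := ((PA_hc (K := F)).const_mul (n : ℝ)).add
      (tendsto_finset_sum (Finset.univ : Finset κ) fun j _ => PA_hc (K := L j))
    refine h4.congr fun X => ?_
    rw [PA_add, PA_mul, PA_sum]
  -- the difference
  have h5 : Tendsto (PA fun p => low b p - ((n : ℝ) *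
      (Pool.Agent.H921R2.TatePole.hc (𝓞 F) (p : ℕ) : ℝ) +
      ∑ j, (Pool.Agent.H921R2.TatePole.hc (𝓞 (L j)) (p : ℕ) : ℝ))) atTop (𝓝 0) := by
    refine PA_null fun ε hε => ?_
    set d : ℝ := (Module.finrank ℚ F : ℝ) with hd
    have hd0 : 0 ≤ d := by positivity
    have hsmall : ∀ᶠ p : Nat.Primes in cofinite, d * |B| < ε * Real.sqrt (p : ℕ) := by
      have h6 : Tendsto (fun p : Nat.Primes => ε * Real.sqrt (p : ℕ)) cofinite atTop := by
        refine Tendsto.const_mul_atTop hε (Real.tendsto_sqrt_atTop.comp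
          (tendsto_natCast_atTop_atTop.comp ?_))
        rw [← Nat.cofinite_eq_atTop]
        exact Subtype.val_injective.tendsto_cofinite
      exact h6.eventually_gt_atTop _
    rw [Filter.eventually_cofinite] at hb
    filter_upwards [hk, finite_below (F := F) hb, hsmall] with p h7 h8 h9
    have : Fact (p : ℕ).Prime := ⟨p.2⟩
    have hfin := Pool.Agent.H921R2.TatePole.hom_finite (K := F) p
    let _ := Fintype.ofFinite (𝓞 F →+* ZMod (p : ℕ))
    have hsq : 0 < Real.sqrt (p : ℕ) := Real.sqrt_pos.2 (by exact_mod_cast p.2.pos)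
    have e1 : low b p = ∑ u : 𝓞 F →+* ZMod (p : ℕ), b (kerPrime p u).1.1 := by
      rw [Pool.Agent.W353.TP.low_kerPrime]
    have e2 : low b p - ((n : ℝ) * (Pool.Agent.H921R2.TatePole.hc (𝓞 F) (p : ℕ) : ℝ) +
        ∑ j, (Pool.Agent.H921R2.TatePole.hc (𝓞 (L j)) (p : ℕ) : ℝ)) =
        ∑ u : 𝓞 F →+* ZMod (p : ℕ),
          (b (kerPrime p u).1.1 - n - nrv D (kerPrime p u).1.1) := by
      have h10 : (∑ j, (Pool.Agent.H921R2.TatePole.hc (𝓞 (L j)) (p : ℕ) : ℝ)) =
          ∑ u : 𝓞 F →+* ZMod (p : ℕ), (nrv D (kerPrime p u).1.1 : ℝ) := by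
        have h11 : ∑ u : 𝓞 F →+* ZMod (p : ℕ), nrv D (kerPrime p u).1.1 =
            ∑ j, Nat.card (𝓞 (L j) →+* ZMod (p : ℕ)) := by
          rw [← h7]
          simp only [finsum_eq_sum_of_fintype]
          exact Finset.sum_congr rfl fun u _ => nrv_ker D p u
        unfold Pool.Agent.H921R2.TatePole.hc
        exact_mod_cast h11.symm
      rw [e1, h10, Finset.sum_sub_distrib, Finset.sum_sub_distrib, Finset.sum_const,
        Finset.card_univ, nsmul_eq_mul]
      unfold Pool.Agent.H921R2.TatePole.hc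
      rw [Nat.card_eq_fintype_card]
      ring
    rw [e2]
    have h12 : ∀ u ∈ (Finset.univ : Finset (𝓞 F →+* ZMod (p : ℕ))),
        |b (kerPrime p u).1.1 - n - nrv D (kerPrime p u).1.1| ≤ |B| / Real.sqrt (p : ℕ) := by
      intro u _
      have h13 : |b (kerPrime p u).1.1 - n - nrv D (kerPrime p u).1.1| *
          Real.sqrt (nm (kerPrime p u).1.1) ≤ B := by
        by_contra hcon
        exact h8 u hcon
      have h14 : nm (kerPrime p u).1.1 = p := Pool.Agent.H341R2.nm_kerPrime p u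
      rw [h14] at h13
      rw [le_div_iff₀ hsq]
      exact h13.trans (le_abs_self B)
    refine (Finset.abs_sum_le_sum_abs _ _).trans ?_
    refine (Finset.sum_le_card_nsmul _ _ _ h12).trans ?_
    rw [nsmul_eq_mul, Finset.card_univ]
    have h15 := H332.PIT.hc_cast_le (K := F) p.2
    rw [Nat.card_eq_fintype_card] at h15
    have h16 : (Fintype.card (𝓞 F →+* ZMod (p : ℕ)) : ℝ) * (|B| / Real.sqrt (p : ℕ)) ≤
        d * (|B| / Real.sqrt (p : ℕ)) :=
      mul_le_mul_of_nonneg_right h15 (by positivity)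
    refine h16.trans ?_
    rw [← mul_div_assoc, div_le_iff₀ hsq]
    exact h9.le
  have h6 := ((h1.add h2).add h5).add h3
  have e : (0 : ℝ) + 0 + 0 + ((n : ℝ) * 1 + ∑ _j : κ, (1 : ℝ)) =
      ((n + numFactors (D.map (algebraMap (𝓞 F) F)) : ℤ) : ℝ) := by
    rw [Finset.sum_const, Finset.card_univ, hcard, nsmul_eq_mul]
    push_cast
    ring
  rw [e] at h6
  refine h6.congr fun X => ?_
  rw [average_eq, PA_sub, Pool.Agent.W353.SP.EN_eq]
  ring

end

section
variable {K : Type} [Field K] [NumberField K] {k l r g : ℕ}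
  {G : Fin l → MvPolynomial (Fin k) (𝓞 K)}
  {D₀ : (𝓞 K)[X]} {δ : Fin r → MvPolynomial (Fin k) (𝓞 K)}
  {b : (MvPolynomial (Fin k) (𝓞 K))[X]}

/-- **The natural averages.** -/
theorem quad_natural (h : IsQuadPencil g G D₀ δ b)
    (E : IntermediateField K (AlgebraicClosure K)) [NumberField E]
    (R : Finset (HeightOneSpectrum (𝓞 E))) :
    Tendsto (average R fun v => -averageQuad G D₀ δ b
      ((Ideal.Quotient.mk v.asIdeal).comp (algebraMap (𝓞 K) (𝓞 E)))) atTop
      (𝓝 (quadRank r D₀ E : ℝ)) := by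
  obtain ⟨B, hB⟩ := av_asy h E
  obtain ⟨B', hB'⟩ := av_bound h E
  have hm : (D₀.map (algebraMap (𝓞 K) (𝓞 E))).Monic := h.monic.map _
  have hs : ((D₀.map (algebraMap (𝓞 K) (𝓞 E))).map (algebraMap (𝓞 E) E)).Separable := by
    rw [map_base, ← Polynomial.map_map]
    exact h.separable.map
  have h1 := natural_nr hm hs ((r : ℤ) - 1) hB hB' R
  have h3 : (((r : ℤ) - 1 + numFactors ((D₀.map (algebraMap (𝓞 K) (𝓞 E))).map
      (algebraMap (𝓞 E) E)) : ℤ) : ℝ) = (quadRank r D₀ E : ℝ) := by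
    rw [map_base]
    have h4 := rank_pos h E
    unfold quadRank
    push_cast [Nat.cast_sub h4]
    ring
  rw [h3] at h1
  exact h1

end

end Pool.Agent.Y707.DK
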